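import Pool.Agent.H72.Bp.Defs
import Pool.Agent.PerSL2.Iso

/-! Isolating one diagonal in `r` dimensions. -/

set_option autoImplicit false

namespace Pool.Agent.H72.Bp

open Finset MvPolynomial
open scoped Nat
open Pool.Agent.H10.PerSL (es)
open Pool.Agent.PerSL2 Pool.Agent.PerSL2.IsoM

universe u

theorem fr_eq_one {R : Type u} [CommRing R] {I J : Type} [DecidableEq I] [DecidableEq J]
    (k : ℕ) (W : I → I → R) (a b : I → R) :
    fr k (coreW W) a b = one k W a b := by
  funext i j
  rcases i with (i | i) | i <;> rcases j with (j | j) | j <;> rfl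

theorem es_extend {R : Type u} [CommRing R] {I J : Type} [Fintype I] [Fintype J]
    (k : ℕ) (e : I ↪ J) (y : I → R) (yy : J → R)
    (h1 : ∀ i, yy (e i) = y i) (h2 : ∀ j, (∀ i, e i ≠ j) → yy j = 0) :
    es univ k yy = es univ k y := by
  classical
  unfold es
  have h3 : ∑ C ∈ (univ : Finset I).powersetCard k, ∏ j ∈ C, y j =
      ∑ C ∈ ((univ : Finset I).map e).powersetCard k, ∏ j ∈ C, yy j := by
    rw [Finset.powersetCard_map, Finset.sum_map]
    apply Finset.sum_congr rfl
    intro C _
    change _ = ∏ j ∈ C.map e, yy j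
    rw [Finset.prod_map]
    apply Finset.prod_congr rfl
    intro i _
    exact (h1 i).symm
  rw [h3]
  symm
  apply Finset.sum_subset
  · exact Finset.powersetCard_mono (Finset.subset_univ _)
  · intro C hC hC'
    rw [Finset.mem_powersetCard] at hC hC'
    have h4 : ¬ C ⊆ univ.map e := fun h => hC' ⟨h, hC.2⟩
    rw [Finset.not_subset] at h4
    obtain ⟨j, hj, hj'⟩ := h4
    apply Finset.prod_eq_zero hj
    apply h2
    intro i hi
    apply hj'
    rw [Finset.mem_map]
    exact ⟨i, Finset.mem_univ _, hi⟩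

theorem isoR {R : Type u} [CommRing R] [IsDomain R] {r h : ℕ} (k : ℕ) (t : R) (ht : t ≠ 0)
    (B : ℕ) (hB : 4 * h ^ 2 ≤ B) (y : (Fin r → Fin h) → (Fin r → Fin h) → R)
    (q : Fin r → Fin h) :
    ∃ Z : R, pm (fr k (coreW (wR t y)) (fun i => ∏ l, t ^ ((q l : ℕ) ^ 2 + 2 * q l * i l))
        (fun c => ∏ l, t ^ (B - 2 * q l * c l))) =
      t ^ (k * (r * B)) * ((k ! : R) ^ 2 * es univ k (y q)) + t ^ (k * (r * B) + 1) * Z := by
  classical
  -- the core after moving the weights
  let W2 : (Fin r → Fin (2 * h)) → (Fin r → Fin (2 * h)) → R := fun i c =>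
    if H : (∀ l, (i l : ℕ) < h) ∧ ∀ l, (i l : ℕ) ≤ c l ∧ (c l : ℕ) - i l < h then
      t ^ (∑ l, ((((c l : ℕ) - i l) - q l) ^ 2 + ((q l : ℕ) - ((c l : ℕ) - i l)) ^ 2)) *
        y (fun l => ⟨(c l : ℕ) - i l, (H.2 l).2⟩) (fun l => ⟨(i l : ℕ), H.1 l⟩)
    else 0
  let f : (Fin r → Fin (2 * h)) → (Fin r → Fin (2 * h)) := fun i l =>
    ⟨((i l : ℕ) + q l) % (2 * h), Nat.mod_lt _ (by have := (q l).2; omega)⟩
  have hf : Function.Injective f := by
    intro i i' hii
    funext l
    have h1 := congrArg Fin.val (congrFun hii l)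
    simp only [f] at h1
    have h2 : (i l : ℕ) ≡ i' l [MOD 2 * h] := Nat.ModEq.add_right_cancel' _ h1
    have h3 : (i l : ℕ) = i' l := by
      have e1 := Nat.mod_eq_of_lt (i l).2
      have e2 := Nat.mod_eq_of_lt (i' l).2
      unfold Nat.ModEq at h2
      rw [e1, e2] at h2
      exact h2
    exact Fin.ext h3
  let yy : (Fin r → Fin (2 * h)) → R := fun i =>
    if H : ∀ l, (i l : ℕ) < h then y q (fun l => ⟨(i l : ℕ), H l⟩) else 0
  rw [fr_eq_one (J := Fin r → Fin (2 * h)), one_scale k _ _ _ ?_ ?_]
  rotate_left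
  · intro i
    exact Finset.prod_ne_zero_iff.2 fun l _ => pow_ne_zero _ ht
  · intro c
    exact Finset.prod_ne_zero_iff.2 fun l _ => pow_ne_zero _ ht
  have hW : (fun (i c : Fin r → Fin (2 * h)) => (∏ l, t ^ ((q l : ℕ) ^ 2 + 2 * q l * i l)) *
      wR t y i c * ∏ l, t ^ (B - 2 * q l * c l)) = fun i c => t ^ (r * B) * W2 i c := by
    funext i c
    simp only [wR, W2]
    by_cases H : (∀ l, (i l : ℕ) < h) ∧ ∀ l, (i l : ℕ) ≤ c l ∧ (c l : ℕ) - i l < h
    · rw [dif_pos H, dif_pos H, Finset.prod_pow_eq_pow_sum, Finset.prod_pow_eq_pow_sum]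
      have hexp : (∑ l, ((q l : ℕ) ^ 2 + 2 * q l * i l)) + (∑ l, ((c l : ℕ) - i l) ^ 2) +
          (∑ l, (B - 2 * (q l : ℕ) * c l)) =
          r * B + ∑ l, ((((c l : ℕ) - i l) - q l) ^ 2 + ((q l : ℕ) - ((c l : ℕ) - i l)) ^ 2) := by
        have hrB : r * B = ∑ _l : Fin r, B := by simp
        rw [hrB, ← Finset.sum_add_distrib, ← Finset.sum_add_distrib, ← Finset.sum_add_distrib]
        apply Finset.sum_congr rfl
        intro l _
        obtain ⟨p, hp⟩ := Nat.exists_eq_add_of_le (H.2 l).1
        have hq := (q l).2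
        have hc := (c l).2
        have hcB : 2 * (q l : ℕ) * c l ≤ B := by
          refine le_trans ?_ hB
          have h1 : (q l : ℕ) * c l ≤ h * (2 * h) := Nat.mul_le_mul hq.le hc.le
          nlinarith
        have hpi : (c l : ℕ) - i l = p := by omega
        rw [hpi]
        have e1 : 2 * (q l : ℕ) * c l = 2 * (q l : ℕ) * i l + 2 * q l * p := by rw [hp]; ring
        have e2 : p ^ 2 + (q l : ℕ) ^ 2 = (p - q l) ^ 2 + ((q l : ℕ) - p) ^ 2 + 2 * q l * p := by
          rcases le_total p (q l) with h2 | h2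
          · obtain ⟨z, hz⟩ := Nat.exists_eq_add_of_le h2
            rw [hz]
            have : p - (p + z) = 0 := by omega
            rw [this]
            have : p + z - p = z := by omega
            rw [this]
            ring
          · obtain ⟨z, hz⟩ := Nat.exists_eq_add_of_le h2
            rw [hz]
            have : (q l : ℕ) - (q l + z) = 0 := by omega
            rw [this]
            have : (q l : ℕ) + z - q l = z := by omega
            rw [this]
            ring
        rw [e1] at hcB ⊢
        omega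
      calc t ^ (∑ l, ((q l : ℕ) ^ 2 + 2 * q l * i l)) *
            (t ^ (∑ l, ((c l : ℕ) - i l) ^ 2) *
              y (fun l => ⟨(c l : ℕ) - i l, (H.2 l).2⟩) (fun l => ⟨(i l : ℕ), H.1 l⟩)) *
            t ^ (∑ l, (B - 2 * (q l : ℕ) * c l))
          = t ^ ((∑ l, ((q l : ℕ) ^ 2 + 2 * q l * i l)) + (∑ l, ((c l : ℕ) - i l) ^ 2) +
          (∑ l, (B - 2 * (q l : ℕ) * c l))) *
            y (fun l => ⟨(c l : ℕ) - i l, (H.2 l).2⟩) (fun l => ⟨(i l : ℕ), H.1 l⟩) := by
            rw [pow_add, pow_add]; ring
        _ = _ := by rw [hexp, pow_add]; ring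
    · rw [dif_neg H, dif_neg H]
      simp
  rw [hW, one_smul' k _ (pow_ne_zero _ ht)]
  obtain ⟨Z, hZ⟩ := one_mod k t W2 (fun i c => if c = f i then yy i else 0) (by
    intro i c
    simp only [W2]
    by_cases H : (∀ l, (i l : ℕ) < h) ∧ ∀ l, (i l : ℕ) ≤ c l ∧ (c l : ℕ) - i l < h
    · rw [dif_pos H]
      by_cases hq : ∀ l, (c l : ℕ) - i l = q l
      · refine ⟨0, ?_⟩
        have hc : c = f i := by
          funext l
          apply Fin.ext
          simp only [f]
          have h1 := hq l
          have h2 := (H.2 l).1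
          have h3 := (c l).2
          have h4 : (i l : ℕ) + q l = c l := by omega
          rw [h4, Nat.mod_eq_of_lt h3]
        rw [if_pos hc]
        simp only [yy]
        rw [dif_pos H.1]
        have hs : ∑ l, ((((c l : ℕ) - i l) - q l) ^ 2 + ((q l : ℕ) - ((c l : ℕ) - i l)) ^ 2)
            = 0 := by
          apply Finset.sum_eq_zero
          intro l _
          rw [hq l]
          simp
        rw [hs, pow_zero, one_mul, mul_zero, add_zero]
        congr 1
        funext l
        apply Fin.ext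
        exact hq l
      · have hne : ¬ c = f i := by
          intro hc
          apply hq
          intro l
          have h1 := congrArg Fin.val (congrFun hc l)
          simp only [f] at h1
          have h2 := H.1 l
          have h3 := (q l).2
          rw [Nat.mod_eq_of_lt (by omega)] at h1
          omega
        rw [if_neg hne]
        push Not at hq
        obtain ⟨l₀, hl₀⟩ := hq
        have hpos : 0 < ∑ l, ((((c l : ℕ) - i l) - q l) ^ 2 +
            ((q l : ℕ) - ((c l : ℕ) - i l)) ^ 2) := by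
          apply Finset.sum_pos'
          · intro l _
            exact Nat.zero_le _
          · refine ⟨l₀, Finset.mem_univ _, ?_⟩
            rcases Nat.lt_or_gt_of_ne hl₀ with h1 | h1
            · have : 0 < (q l₀ : ℕ) - ((c l₀ : ℕ) - i l₀) := by omega
              positivity
            · have : 0 < ((c l₀ : ℕ) - i l₀) - q l₀ := by omega
              positivity
        obtain ⟨N, hN⟩ := Nat.exists_eq_add_of_lt hpos
        rw [Nat.zero_add] at hN
        rw [hN, pow_succ]
        refine ⟨t ^ N * y (fun l => ⟨(c l : ℕ) - i l, (H.2 l).2⟩)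
          (fun l => ⟨(i l : ℕ), H.1 l⟩), ?_⟩
        ring
    · rw [dif_neg H]
      refine ⟨0, ?_⟩
      by_cases hc : c = f i
      · rw [if_pos hc]
        simp only [yy]
        rw [dif_neg, mul_zero, add_zero]
        intro H1
        apply H
        refine ⟨H1, fun l => ?_⟩
        have h1 := congrArg Fin.val (congrFun hc l)
        simp only [f] at h1
        have h2 := H1 l
        have h3 := (q l).2
        rw [Nat.mod_eq_of_lt (by omega)] at h1
        omega
      · rw [if_neg hc, mul_zero, add_zero])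
  rw [hZ, pm_diag f hf yy k]
  let emb : (Fin r → Fin h) ↪ (Fin r → Fin (2 * h)) :=
    ⟨fun i l => ⟨(i l : ℕ), by have := (i l).2; omega⟩, by
      intro i i' hii
      funext l
      have := congrArg Fin.val (congrFun hii l)
      exact Fin.ext this⟩
  rw [es_extend k emb (y q) yy (by
    intro i
    have hH : ∀ l, ((emb i l : Fin (2 * h)) : ℕ) < h := fun l => (i l).2
    simp only [yy]
    rw [dif_pos hH]
    rfl) (by
    intro j hj
    simp only [yy]
    rw [dif_neg]
    intro H
    exact hj (fun l => ⟨(j l : ℕ), H l⟩) rfl)]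
  refine ⟨Z, ?_⟩
  rw [← pow_mul]
  rw [show r * B * k = k * (r * B) by ring, pow_succ]
  ring

end Pool.Agent.H72.Bp
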