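import Pool.Agent.H72.Bp.Mul
import Pool.Agent.H72.Bp.IsoR

/-!
# Squad ABP, module Gad: assembly of the gadget
-/

set_option autoImplicit false

namespace Pool.Agent.H72.Bp

open Finset MvPolynomial
open scoped Nat
open Pool.Agent.H10.PerSL (es)
open Pool.Agent.H53.AC Pool.Agent.PerSL2

universe u v w

section gad

variable {K : Type u} [Field K] {V : Type}

theorem ent_zero : Entry (0 : MvPolynomial V (PowerSeries K)) := Or.inl ⟨0, by simp⟩

theorem ent_one : Entry (1 : MvPolynomial V (PowerSeries K)) := Or.inl ⟨1, by simp⟩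

theorem ent_pow (n : ℕ) :
    Entry ((C PowerSeries.X : MvPolynomial V (PowerSeries K)) ^ n) :=
  Or.inl ⟨PowerSeries.X ^ n, by rw [map_pow]⟩

theorem alg_eq (x : K) :
    algebraMap K (MvPolynomial V (PowerSeries K)) x = C (PowerSeries.C x) := by
  rw [MvPolynomial.algebraMap_apply]
  rfl

theorem ent_alg (x : K) :
    Entry (-algebraMap K (MvPolynomial V (PowerSeries K)) x) :=
  Or.inl ⟨-PowerSeries.C x, by rw [alg_eq, map_neg]⟩

theorem ent_core {r h : ℕ} (i j) :
    Entry (K := K) (V := (Fin r → Fin h) × (Fin r → Fin h))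
      (coreW (wR (C PowerSeries.X : MvPolynomial ((Fin r → Fin h) × (Fin r → Fin h))
      (PowerSeries K)) (fun p i => X (p, i))) i j) := by
  rcases i with i | c <;> rcases j with c' | i'
  · show Entry (K := K) (V := (Fin r → Fin h) × (Fin r → Fin h))
      (wR (C PowerSeries.X : MvPolynomial ((Fin r → Fin h) × (Fin r → Fin h))
      (PowerSeries K)) (fun p i => X (p, i)) i c')
    unfold wR
    split_ifs with H
    · refine Or.inr ⟨PowerSeries.X ^ (∑ l, ((c' l : ℕ) - i l) ^ 2),
        (fun l => ⟨(c' l : ℕ) - i l, (H.2 l).2⟩, fun l => ⟨(i l : ℕ), H.1 l⟩), ?_⟩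
      rw [map_pow]
    · exact ent_zero
  · show Entry (if i = i' then 1 else 0)
    split_ifs
    · exact ent_one
    · exact ent_zero
  · show Entry (if c = c' then 1 else 0)
    split_ifs
    · exact ent_one
    · exact ent_zero
  · exact ent_zero

end gad

theorem abp_gadget {K : Type u} [Field K] [CharZero K] {r h k : ℕ} (hk : 0 < k)
    (hkm : k < (2 * h) ^ r) {ζ : K} (hζ : IsPrimitiveRoot ζ ((2 * h) ^ r)) :
    ∃ (Row Col : Type) (_ : Fintype Row) (_ : DecidableEq Row) (_ : Fintype Col)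
      (_ : DecidableEq Col)
      (A : Row → Col → MvPolynomial ((Fin r → Fin h) × (Fin r → Fin h)) (PowerSeries K))
      (c : K) (L : ℕ)
      (Z : MvPolynomial ((Fin r → Fin h) × (Fin r → Fin h)) (PowerSeries K)),
      Fintype.card Row = (2 * h) ^ r + r * ((2 * h) ^ r + 2 * (h * (2 * h) ^ r)) +
        (2 * h) ^ r + k ∧
      Fintype.card Col = (2 * h) ^ r + r * ((2 * h) ^ r + 2 * (h * (2 * h) ^ r)) +
        (2 * h) ^ r + k ∧
      (∀ i j, Entry (A i j)) ∧ c ≠ 0 ∧
      pm A = C (PowerSeries.X ^ L) *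
        (C (PowerSeries.C c) * dsum (Fin r → Fin h) (Fin r → Fin h) (PowerSeries K) k) +
        C (PowerSeries.X ^ (L + 1)) * Z := by
  set R := MvPolynomial ((Fin r → Fin h) × (Fin r → Fin h)) (PowerSeries K) with hR
  set t : R := C PowerSeries.X with ht
  have ht0 : t ≠ 0 := by
    rw [ht, Ne, ← C_0, (C_injective _ _).eq_iff]
    exact PowerSeries.X_ne_zero
  set y : (Fin r → Fin h) → (Fin r → Fin h) → R := fun p i => X (p, i) with hy
  set B : ℕ := 4 * h ^ 2 with hB
  have hm : Fintype.card (Fin r → Fin (2 * h)) = (2 * h) ^ r := by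
    rw [Fintype.card_fun, Fintype.card_fin, Fintype.card_fin]
  obtain ⟨ρ, κ, i1, i2, i3, i4, A, c, hc, hρ, hκ, hE, hpm⟩ :=
    multi (K := K) (R := R) (P := Fin r → Fin (2 * h)) (ρ₀ := Fin r → Fin (2 * h))
      (κ₀ := Fin r → Fin (2 * h)) (h := h) (r := r) hk hm hkm hζ (fun x => Entry x)
      ent_zero ent_one ent_alg (coreW (wR t y)) ent_core
      (fun l q p => t ^ ((q : ℕ) ^ 2 + 2 * q * p l)) (fun l q p => t ^ (B - 2 * q * p l))
      (fun _ _ _ => ent_pow _) (fun _ _ _ => ent_pow _)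
  have hiso := fun q : Fin r → Fin h => isoR k t ht0 B le_rfl y q
  choose Z hZ using hiso
  refine ⟨(ρ ⊕ (Fin r → Fin (2 * h))) ⊕ Fin k, (κ ⊕ (Fin r → Fin (2 * h))) ⊕ Fin k,
    inferInstance, inferInstance, inferInstance, inferInstance,
    fr k A (fun _ => 1) (fun _ => 1), c * (k ! : K) ^ 2, k * (r * B),
    algebraMap K R c * ∑ q, Z q, ?_, ?_, ?_, ?_, ?_⟩
  · simp only [Fintype.card_sum, Fintype.card_fin, hm, hρ]
  · simp only [Fintype.card_sum, Fintype.card_fin, hm, hκ]
  · intro i j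
    rcases i with (i | p) | v <;> rcases j with (j | p') | v'
    · exact hE _ _
    · exact hE _ _
    · exact ent_zero
    · exact hE _ _
    · exact hE _ _
    · exact ent_one
    · exact ent_zero
    · exact ent_one
    · exact ent_zero
  · have h1 : (k ! : K) ≠ 0 := by exact_mod_cast Nat.factorial_ne_zero k
    exact mul_ne_zero hc (pow_ne_zero _ h1)
  · rw [hpm]
    simp only [one_mul]
    rw [Finset.sum_congr rfl (fun q _ => hZ q), Finset.sum_add_distrib, ← Finset.mul_sum,
      ← Finset.mul_sum, ← Finset.mul_sum, map_pow, map_pow, ← ht]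
    have h2 : (C (PowerSeries.C (c * (k ! : K) ^ 2)) : R) = algebraMap K R c * (k ! : R) ^ 2 := by
      rw [← alg_eq, map_mul, map_pow, map_natCast]
    rw [h2]
    have h3 : dsum (Fin r → Fin h) (Fin r → Fin h) (PowerSeries K) k =
        ∑ q : Fin r → Fin h, es univ k (y q) := rfl
    rw [h3]
    ring

end Pool.Agent.H72.Bp
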