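import Mathlib

/-!
# The choice of the parameters
-/

set_option autoImplicit false

namespace Pool.Agent.H72.Bp

open Finset
open scoped Nat

/-- `(32 G)^(32 G) ≤ (32 G)! * 8^(16 G)` -/
theorem asy_fact (G : ℕ) : (32 * G) ^ (32 * G) ≤ (32 * G)! * 8 ^ (16 * G) := by
  have h1 : ((32 * G : ℕ) : ℝ) ^ (32 * G) / ((32 * G)! : ℝ) ≤ Real.exp ((32 * G : ℕ) : ℝ) :=
    Real.pow_div_factorial_le_exp _ (Nat.cast_nonneg _) _
  have hf : (0 : ℝ) < ((32 * G)! : ℝ) := by exact_mod_cast Nat.factorial_pos _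
  rw [div_le_iff₀ hf] at h1
  have h2 : Real.exp ((32 * G : ℕ) : ℝ) ≤ 8 ^ (16 * G) := by
    have h3 : ((32 * G : ℕ) : ℝ) = (16 * G : ℕ) * 2 := by push_cast; ring
    rw [h3, Real.exp_nat_mul]
    refine pow_le_pow_left₀ (Real.exp_pos _).le ?_ _
    have h4 := Real.exp_one_lt_d9
    have h5 : Real.exp 2 = Real.exp 1 * Real.exp 1 := by
      rw [← Real.exp_add]
      norm_num
    rw [h5]
    have h6 := Real.exp_pos 1
    nlinarith
  have h3 : ((32 * G : ℕ) : ℝ) ^ (32 * G) ≤ ((32 * G)! : ℝ) * 8 ^ (16 * G) := by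
    refine h1.trans ?_
    rw [mul_comm]
    exact mul_le_mul_of_nonneg_left h2 hf.le
  exact_mod_cast h3

theorem asy_cnt {G cnt : ℕ} (h : (32 * G)! ≤ cnt * 2 ^ (16 * G)) :
    (8 * G) ^ (32 * G) ≤ cnt := by
  have h1 := asy_fact G
  have h2 : (8 * G) ^ (32 * G) * 4 ^ (32 * G) ≤ cnt * 4 ^ (32 * G) := by
    calc (8 * G) ^ (32 * G) * 4 ^ (32 * G) = (32 * G) ^ (32 * G) := by
          rw [← mul_pow]
          congr 1
          ring
      _ ≤ (32 * G)! * 8 ^ (16 * G) := h1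
      _ ≤ cnt * 2 ^ (16 * G) * 8 ^ (16 * G) := Nat.mul_le_mul_right _ h
      _ = cnt * 4 ^ (32 * G) := by
          rw [mul_assoc, ← mul_pow]
          have : 32 * G = 2 * (16 * G) := by ring
          rw [this, pow_mul 4 2]
          norm_num
  exact Nat.le_of_mul_le_mul_right h2 (by positivity)

/-- the main inequality -/
theorem asy_main {G cnt s L : ℕ} (hG : 0 < G) (h : (32 * G)! ≤ cnt * 2 ^ (16 * G))
    (h2 : cnt ^ (32 * G) ≤ (G + 1) ^ ((32 * G) * (32 * G) + 2 * (s / G)))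
    (hL : 2 * G ≤ 2 ^ L) : 1024 * G ^ 3 ≤ L * s := by
  have h1 := asy_cnt h
  have h3 : (8 * G) ^ ((32 * G) * (32 * G)) ≤
      (2 * G) ^ ((32 * G) * (32 * G) + 2 * (s / G)) := by
    calc (8 * G) ^ ((32 * G) * (32 * G)) = ((8 * G) ^ (32 * G)) ^ (32 * G) := by rw [pow_mul]
      _ ≤ cnt ^ (32 * G) := Nat.pow_le_pow_left h1 _
      _ ≤ _ := h2
      _ ≤ _ := Nat.pow_le_pow_left (by omega) _
  have h4 : (8 * G) ^ ((32 * G) * (32 * G)) =
      (2 ^ ((32 * G) * (32 * G))) ^ 2 * (2 * G) ^ ((32 * G) * (32 * G)) := by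
    rw [← pow_mul, mul_comm ((32 * G) * (32 * G)) 2, pow_mul 2 2, ← mul_pow]
    congr 1
    ring
  have h5 : (2 * G) ^ ((32 * G) * (32 * G) + 2 * (s / G)) =
      ((2 * G) ^ (s / G)) ^ 2 * (2 * G) ^ ((32 * G) * (32 * G)) := by
    rw [pow_add, mul_comm 2 (s / G), pow_mul (2 * G) (s / G) 2]
    ring
  rw [h4, h5] at h3
  have h6 := Nat.le_of_mul_le_mul_right h3 (by positivity)
  have h7 : 2 ^ ((32 * G) * (32 * G)) ≤ (2 * G) ^ (s / G) :=
    (Nat.pow_le_pow_iff_left two_ne_zero).1 h6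
  have h8 : 2 ^ ((32 * G) * (32 * G)) ≤ 2 ^ (L * (s / G)) := by
    rw [pow_mul 2 L]
    exact h7.trans (Nat.pow_le_pow_left hL _)
  have h9 : (32 * G) * (32 * G) ≤ L * (s / G) := (Nat.pow_le_pow_iff_right (by norm_num)).1 h8
  calc 1024 * G ^ 3 = ((32 * G) * (32 * G)) * G := by ring
    _ ≤ (L * (s / G)) * G := Nat.mul_le_mul_right _ h9
    _ = L * (s / G * G) := by ring
    _ ≤ L * s := Nat.mul_le_mul_left _ (Nat.div_mul_le_self s G)

theorem asy (ε : ℝ) (hε : 0 < ε) : ∃ n₀ : ℕ, ∀ n ≥ n₀, ∃ r h d G : ℕ,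
    0 < r ∧ 0 < h ∧ 0 < d ∧ 0 < G ∧ h ^ r = 2 * d ∧
    (2 * h) ^ r + r * ((2 * h) ^ r + 2 * (h * (2 * h) ^ r)) + (2 * h) ^ r + (d + 1) ≤ n ∧
    ∀ s cnt : ℕ, (2 * d)! ≤ cnt * 2 ^ d →
      cnt ^ (2 * d) ≤ (G + 1) ^ ((2 * d) * (2 * d) + 2 * (s / G)) →
      (n : ℝ) ^ (3 - ε) ≤ s := by
  -- the parameters
  obtain ⟨q, hq⟩ : ∃ q : ℕ, 6 / ε ≤ q := exists_nat_ge _
  have hq' : 6 ≤ ε * (q + 6) := by
    rw [div_le_iff₀ hε] at hq
    nlinarith
  set r : ℕ := q + 5 with hr
  set C : ℕ := (3 * r + 4) * 2 ^ r with hC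
  have hC1 : 1 ≤ C := Nat.one_le_iff_ne_zero.2 (by positivity)
  set m₀ : ℕ := r * (C ^ 3 * 4 ^ (3 * r - 3)) with hm₀
  have hm₀1 : 1 ≤ m₀ := Nat.one_le_iff_ne_zero.2 (by positivity)
  refine ⟨C * (2 * m₀) ^ (r + 1), fun n hn => ?_⟩
  classical
  -- the largest `m`
  set m : ℕ := Nat.findGreatest (fun m => C * (2 * m) ^ (r + 1) ≤ n) n with hm
  have hmm : ∀ m' : ℕ, C * (2 * m') ^ (r + 1) ≤ n → m' ≤ n := by
    intro m' h
    calc m' ≤ 2 * m' := by omega
      _ ≤ (2 * m') ^ (r + 1) := Nat.le_self_pow (by omega) _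
      _ ≤ C * (2 * m') ^ (r + 1) := Nat.le_mul_of_pos_left _ hC1
      _ ≤ n := h
  have hm0 : m₀ ≤ m := Nat.le_findGreatest (hmm m₀ hn) hn
  have hmn : C * (2 * m) ^ (r + 1) ≤ n :=
    Nat.findGreatest_spec (P := fun m => C * (2 * m) ^ (r + 1) ≤ n) (hmm m₀ hn) hn
  have hnm : n < C * (2 * (m + 1)) ^ (r + 1) := by
    by_contra hcon
    push Not at hcon
    have := Nat.le_findGreatest (P := fun m => C * (2 * m) ^ (r + 1) ≤ n) (hmm _ hcon) hcon
    rw [← hm] at this
    omega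
  have hm1 : 1 ≤ m := hm₀1.trans hm0
  set G : ℕ := 2 ^ q * m ^ r with hG
  have hG0 : 0 < G := by positivity
  have hhr : (2 * m) ^ r = 2 * (16 * G) := by
    rw [mul_pow, hG, hr, pow_add 2 q 5]
    ring
  refine ⟨r, 2 * m, 16 * G, G, by omega, by omega, by omega, hG0, hhr, ?_, ?_⟩
  · refine le_trans ?_ hmn
    have h1 : (2 * (2 * m)) ^ r = 2 ^ r * (2 * m) ^ r := mul_pow _ _ _
    have h2 : (2 * m) ^ (r + 1) = (2 * m) ^ r * (2 * m) := pow_succ _ _
    rw [h1, h2, hC]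
    generalize hP : 2 ^ r * (2 * m) ^ r = P
    have hP1 : 2 * (16 * G) ≤ P := by
      rw [← hP, ← hhr]
      exact Nat.le_mul_of_pos_left _ (by positivity)
    have hP2 : (3 * r + 4) * 2 ^ r * ((2 * m) ^ r * (2 * m)) = (3 * r + 4) * (P * (2 * m)) := by
      rw [← hP]
      ring
    rw [hP2]
    have hP3 : P ≤ P * (2 * m) := Nat.le_mul_of_pos_right _ (by omega)
    have hP4 : r * (P + 2 * (2 * m * P)) ≤ r * (3 * (P * (2 * m))) :=
      Nat.mul_le_mul_left _ (by
        have : 2 * m * P = P * (2 * m) := mul_comm _ _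
        rw [this]
        omega)
    have hP5 : (3 * r + 4) * (P * (2 * m)) = r * (3 * (P * (2 * m))) + 4 * (P * (2 * m)) := by
      ring
    rw [hP5]
    omega
  · intro s cnt h1 h2
    have e1 : 2 * (16 * G) = 32 * G := by ring
    rw [e1] at h1 h2
    -- the logarithm
    have hL : 2 * G ≤ 2 ^ (2 * r * m) := by
      have h3 : m ^ r ≤ 2 ^ (m * r) := by
        rw [pow_mul]
        exact Nat.pow_le_pow_left Nat.lt_two_pow_self.le _
      calc 2 * G = 2 ^ (q + 1) * m ^ r := by rw [hG, pow_succ]; ring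
        _ ≤ 2 ^ (q + 1) * 2 ^ (m * r) := Nat.mul_le_mul_left _ h3
        _ = 2 ^ (q + 1 + m * r) := (pow_add _ _ _).symm
        _ ≤ 2 ^ (2 * r * m) := by
            refine Nat.pow_le_pow_right (by norm_num) ?_
            have h4 : q + 1 ≤ r * m := by
              calc q + 1 ≤ r := by omega
                _ ≤ r * m := Nat.le_mul_of_pos_right _ hm1
            have h5 : 2 * r * m = r * m + m * r := by ring
            omega
    have h3 := asy_main hG0 h1 h2 hL
    -- the bound for `s`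
    have h4 : C ^ 3 * (4 * m) ^ (3 * r - 3) ≤ s := by
      have h5 : G ^ 3 = 8 ^ q * (m ^ (3 * r - 3) * m ^ 3) := by
        rw [hG, mul_pow, ← pow_mul, ← pow_mul, ← pow_add]
        have e2 : 3 * r - 3 + 3 = r * 3 := by omega
        rw [e2, mul_comm q 3, pow_mul 2 3 q]
        norm_num
      have h6 : (r * m) * (C ^ 3 * (4 * m) ^ (3 * r - 3)) ≤ (r * m) * s := by
        calc (r * m) * (C ^ 3 * (4 * m) ^ (3 * r - 3))
            = (r * (C ^ 3 * 4 ^ (3 * r - 3))) * (m * m ^ (3 * r - 3)) := by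
              rw [mul_pow]; ring
          _ = m₀ * (m * m ^ (3 * r - 3)) := by rw [hm₀]
          _ ≤ m * (m * m ^ (3 * r - 3)) := Nat.mul_le_mul_right _ hm0
          _ ≤ 512 * 8 ^ q * m * (m * (m * m ^ (3 * r - 3))) := by
              refine Nat.le_mul_of_pos_left _ ?_
              positivity
          _ = 512 * G ^ 3 := by rw [h5]; ring
          _ ≤ (r * m) * s := by
              have h7 : 2 * r * m * s = 2 * ((r * m) * s) := by ring
              rw [h7] at h3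
              omega
      exact Nat.le_of_mul_le_mul_left h6 (by positivity)
    -- the bound for `n`
    have h5 : (n : ℝ) ≤ C * (4 * m) ^ (r + 1) := by
      have h6 : n ≤ C * (4 * m) ^ (r + 1) := by
        refine hnm.le.trans (Nat.mul_le_mul_left _ (Nat.pow_le_pow_left (by omega) _))
      exact_mod_cast h6
    have hCr : (1 : ℝ) ≤ C := by exact_mod_cast hC1
    have hmr : (1 : ℝ) ≤ 4 * m := by
      have : 1 ≤ 4 * m := by omega
      exact_mod_cast this
    have hn1 : (1 : ℝ) ≤ n := by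
      have : 1 ≤ n := hm1.trans (hmm m hmn)
      exact_mod_cast this
    have h6 : (n : ℝ) ^ (3 - ε) ≤ C ^ 3 * (4 * m) ^ (3 * r - 3) := by
      rcases le_total ε 3 with hle | hle
      · calc (n : ℝ) ^ (3 - ε) ≤ (C * (4 * m) ^ (r + 1)) ^ (3 - ε) :=
              Real.rpow_le_rpow (by positivity) h5 (by linarith)
          _ = (C : ℝ) ^ (3 - ε) * (4 * m) ^ ((r + 1 : ℕ) * (3 - ε)) := by
              rw [Real.mul_rpow (by positivity) (by positivity), Real.rpow_mul (by positivity),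
                Real.rpow_natCast]
          _ ≤ (C : ℝ) ^ (3 : ℝ) * (4 * m) ^ ((3 * r - 3 : ℕ) : ℝ) := by
              refine mul_le_mul (Real.rpow_le_rpow_of_exponent_le hCr (by linarith))
                (Real.rpow_le_rpow_of_exponent_le hmr ?_) (by positivity) (by positivity)
              have e3 : ((3 * r - 3 : ℕ) : ℝ) = 3 * r - 3 := by
                rw [Nat.cast_sub (by omega)]
                push_cast
                ring
              rw [e3]
              have e4 : (r : ℝ) = q + 5 := by rw [hr]; push_cast; ring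
              push_cast
              rw [e4]
              nlinarith
          _ = C ^ 3 * (4 * m) ^ (3 * r - 3) := by
              rw [Real.rpow_natCast]
              congr 1
              exact_mod_cast Real.rpow_natCast (C : ℝ) 3
      · calc (n : ℝ) ^ (3 - ε) ≤ 1 :=
              Real.rpow_le_one_of_one_le_of_nonpos hn1 (by linarith)
          _ ≤ C ^ 3 * (4 * m) ^ (3 * r - 3) :=
              one_le_mul_of_one_le_of_one_le (one_le_pow₀ hCr) (one_le_pow₀ hmr)
    refine h6.trans ?_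
    exact_mod_cast h4

end Pool.Agent.H72.Bp
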