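import Pool.Agent.H72.Bp.Seq

/-! The Bezout type bound for layered branching programs. -/

set_option autoImplicit false

namespace Pool.Agent.H72.Bp

open Finset MvPolynomial

universe u v w

theorem totalDegree_sum_le {σ : Type v} {R : Type u} [CommSemiring R] {ι : Type w}
    (s : Finset ι) (f : ι → MvPolynomial σ R) (D : ℕ) (h : ∀ i ∈ s, (f i).totalDegree ≤ D) :
    (∑ i ∈ s, f i).totalDegree ≤ D := by
  refine (totalDegree_finsetSum s f).trans ?_
  exact Finset.sup_le h

theorem totalDegree_pderiv_le {σ : Type v} {R : Type u} [CommRing R] (i : σ)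
    (p : MvPolynomial σ R) (hp : p.totalDegree ≤ 1) : (pderiv i p).totalDegree = 0 := by
  classical
  rw [← Nat.le_zero]
  conv_lhs => rw [p.as_sum]
  rw [map_sum]
  apply totalDegree_sum_le
  intro m hm
  rw [pderiv_monomial]
  by_cases hmi : m i = 0
  · rw [hmi]
    simp
  · refine (totalDegree_monomial_le _ _).trans ?_
    have h1 : m.degree ≤ 1 := by
      have := le_totalDegree hm
      have h0 : m.degree = m.sum fun _ e => e := rfl
      rw [h0]
      exact this.trans hp
    have h2 : m.degree = (m - Finsupp.single i 1).degree + 1 := by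
      have h3 : m = (m - Finsupp.single i 1) + Finsupp.single i 1 := by
        rw [tsub_add_cancel_of_le]
        rw [Finsupp.single_le_iff]
        omega
      conv_lhs => rw [h3]
      rw [map_add, Finsupp.degree_single]
    have h4 : (m - Finsupp.single i 1).degree = 0 := by omega
    rw [Finsupp.degree_eq_zero_iff] at h4
    rw [h4]
    simp

section phi

/-- `(i + (G - r)) % G` -/
def ps (G r i : ℕ) : ℕ := (i + (G - r)) % G

theorem ps_lt {G r : ℕ} (hG : 1 ≤ G) (i : ℕ) : ps G r i < G := Nat.mod_lt _ (by omega)

theorem ps_zero_iff {G r : ℕ} (hr : r < G) (i : ℕ) : ps G r i = 0 ↔ i % G = r := by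
  unfold ps
  constructor
  · intro h
    have h1 : (i + (G - r) + r) % G = r := by
      rw [Nat.add_mod, h, Nat.zero_add, Nat.mod_mod, Nat.mod_eq_of_lt hr]
    have h2 : i + (G - r) + r = i + G := by omega
    rw [h2, Nat.add_mod_right] at h1
    exact h1
  · intro h
    have h1 : i = G * (i / G) + r := by
      conv_lhs => rw [← Nat.div_add_mod i G]
      rw [h]
    have h2 : i + (G - r) = G * (i / G + 1) := by
      rw [mul_add, mul_one]
      omega
    rw [h2, Nat.mul_mod_right]

theorem ps_succ {G r : ℕ} (hG : 1 ≤ G) (hr : r < G) (i : ℕ) (h : (i + 1) % G ≠ r) :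
    ps G r (i + 1) = ps G r i + 1 := by
  have h0 : ps G r (i + 1) ≠ 0 := fun h' => h ((ps_zero_iff hr _).1 h')
  have hlt := ps_lt (r := r) hG i
  unfold ps at h0 hlt ⊢
  have e : i + 1 + (G - r) = (i + (G - r)) + 1 := by omega
  rw [e] at h0 ⊢
  generalize i + (G - r) = x at *
  have h1 : (x + 1) % G = (x % G + 1) % G := by
    rw [Nat.add_mod x 1 G, Nat.add_mod (x % G) 1 G, Nat.mod_mod]
  rw [h1] at h0 ⊢
  rcases Nat.lt_or_ge (x % G + 1) G with h2 | h2
  · exact Nat.mod_eq_of_lt h2
  · have h3 : x % G + 1 = G := by omega
    rw [h3, Nat.mod_self] at h0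
    exact absurd rfl h0

end phi

variable {K : Type u} [Field K] {τ : Type v} {s : ℕ}

/-- walks of length `j` from `w` to the sink -/
noncomputable def bw (B : ABP K τ s) : ℕ → Fin s → MvPolynomial τ K
  | 0, w => if w = B.sink then 1 else 0
  | j + 1, w => ∑ u, if B.layer u = B.layer w + 1 then B.label w u * bw B j u else 0

/-- the chosen vertices -/
abbrev Cs (B : ABP K τ s) (G r : ℕ) : Type := {w : Fin s // B.layer w % G = r}

/-- labels in the large ring -/
noncomputable def lb (B : ABP K τ s) (G r : ℕ) (u w : Fin s) :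
    MvPolynomial (τ ⊕ (Cs B G r ⊕ Cs B G r)) K := rename Sum.inl (B.label u w)

/-- forward sums, reset at the chosen vertices -/
noncomputable def pr (B : ABP K τ s) (G r : ℕ) :
    ℕ → Fin s → MvPolynomial (τ ⊕ (Cs B G r ⊕ Cs B G r)) K
  | 0, w => if w = B.source then 1 else 0
  | i + 1, w => ∑ u, if B.layer w = B.layer u + 1 then
      (if hu : B.layer u % G = r then X (Sum.inr (Sum.inl ⟨u, hu⟩)) else pr B G r i u) *
        lb B G r u w else 0

/-- backward sums, reset at the chosen vertices -/
noncomputable def po (B : ABP K τ s) (G r : ℕ) :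
    ℕ → Fin s → MvPolynomial (τ ⊕ (Cs B G r ⊕ Cs B G r)) K
  | 0, w => if w = B.sink then 1 else 0
  | j + 1, w => ∑ u, if B.layer u = B.layer w + 1 then
      lb B G r w u * (if hu : B.layer u % G = r then X (Sum.inr (Sum.inr ⟨u, hu⟩)) else
        po B G r j u) else 0

/-- forward expression at a vertex -/
noncomputable def fx (B : ABP K τ s) (G r : ℕ) (u : Fin s) :
    MvPolynomial (τ ⊕ (Cs B G r ⊕ Cs B G r)) K :=
  if hu : B.layer u % G = r then X (Sum.inr (Sum.inl ⟨u, hu⟩)) else pr B G r (B.layer u) u

/-- backward expression at a vertex -/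
noncomputable def bx (B : ABP K τ s) (G r : ℕ) (u : Fin s) :
    MvPolynomial (τ ⊕ (Cs B G r ⊕ Cs B G r)) K :=
  if hu : B.layer u % G = r then X (Sum.inr (Sum.inr ⟨u, hu⟩)) else
    po B G r (B.layer B.sink - B.layer u) u

/-- the values of the new variables -/
noncomputable def Gc (B : ABP K τ s) (G r : ℕ) : Cs B G r ⊕ Cs B G r → MvPolynomial τ K
  | Sum.inl w => B.fwd (B.layer w.1) w.1
  | Sum.inr w => if B.layer w.1 ≤ B.layer B.sink then bw B (B.layer B.sink - B.layer w.1) w.1
      else 0

/-- the equations for the new variables -/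
noncomputable def Qc (B : ABP K τ s) (G r : ℕ) :
    Cs B G r ⊕ Cs B G r → MvPolynomial (τ ⊕ (Cs B G r ⊕ Cs B G r)) K
  | Sum.inl w => pr B G r (B.layer w.1) w.1
  | Sum.inr w => if B.layer w.1 ≤ B.layer B.sink then
      po B G r (B.layer B.sink - B.layer w.1) w.1 else 0

theorem aeval_lb (B : ABP K τ s) (G r : ℕ) {R : Type w} [CommRing R] [Algebra K R] (x : τ → R)
    (y : Cs B G r ⊕ Cs B G r → R) (u v : Fin s) :
    aeval (Sum.elim x y) (lb B G r u v) = aeval x (B.label u v) := by
  unfold lb
  rw [aeval_rename]
  rfl

/-! ### evaluation -/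

theorem pr_eval (B : ABP K τ s) (G r : ℕ) {R : Type w} [CommRing R] [Algebra K R] (x : τ → R)
    (y : Cs B G r ⊕ Cs B G r → R) (N : ℕ)
    (hy : ∀ u : Cs B G r, B.layer u.1 < N → y (Sum.inl u) = aeval x (B.fwd (B.layer u.1) u.1)) :
    ∀ i ≤ N, ∀ v, B.layer v = i → aeval (Sum.elim x y) (pr B G r i v) = aeval x (B.fwd i v) := by
  intro i
  induction i with
  | zero =>
    intro _ v _
    simp only [pr, ABP.fwd]
    split_ifs <;> simp
  | succ i ih =>
    intro hi v hv
    simp only [pr, ABP.fwd]
    rw [map_sum, map_sum]
    apply Finset.sum_congr rfl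
    intro u _
    by_cases hu : B.layer v = B.layer u + 1
    · rw [if_pos hu, if_pos hu, map_mul, map_mul, aeval_lb]
      congr 1
      have hui : B.layer u = i := by omega
      by_cases hc : B.layer u % G = r
      · rw [dif_pos hc, aeval_X]
        simp only [Sum.elim_inr]
        rw [hy ⟨u, hc⟩ (by simp only; omega)]
        simp only [hui]
      · rw [dif_neg hc]
        exact ih (by omega) u hui
    · rw [if_neg hu, if_neg hu, map_zero, map_zero]

theorem po_eval (B : ABP K τ s) (G r : ℕ) {R : Type w} [CommRing R] [Algebra K R] (x : τ → R)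
    (y : Cs B G r ⊕ Cs B G r → R) (N : ℕ)
    (hy : ∀ u : Cs B G r, B.layer u.1 ≤ B.layer B.sink → B.layer B.sink - B.layer u.1 < N →
      y (Sum.inr u) = aeval x (bw B (B.layer B.sink - B.layer u.1) u.1)) :
    ∀ j ≤ N, ∀ v, B.layer v + j = B.layer B.sink →
      aeval (Sum.elim x y) (po B G r j v) = aeval x (bw B j v) := by
  intro j
  induction j with
  | zero =>
    intro _ v _
    simp only [po, bw]
    split_ifs <;> simp
  | succ j ih =>
    intro hj v hv
    simp only [po, bw]
    rw [map_sum, map_sum]
    apply Finset.sum_congr rfl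
    intro u _
    by_cases hu : B.layer u = B.layer v + 1
    · rw [if_pos hu, if_pos hu, map_mul, map_mul, aeval_lb]
      congr 1
      have huj : B.layer B.sink - B.layer u = j := by omega
      by_cases hc : B.layer u % G = r
      · rw [dif_pos hc, aeval_X]
        simp only [Sum.elim_inr]
        rw [hy ⟨u, hc⟩ (by simp only; omega) (by simp only; omega)]
        simp only [huj]
      · rw [dif_neg hc]
        exact ih (by omega) u (by omega)
    · rw [if_neg hu, if_neg hu, map_zero, map_zero]

/-! ### degrees -/

theorem lb_deg (B : ABP K τ s) (G r : ℕ) (u w : Fin s) : (lb B G r u w).totalDegree ≤ 1 :=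
  (totalDegree_rename_le _ _).trans (B.label_deg u w)

theorem pr_deg (B : ABP K τ s) {G r : ℕ} (hG : 1 ≤ G) (hr : r < G) (i : ℕ) : ∀ v,
    B.layer v = i → (pr B G r i v).totalDegree ≤ G + 1 ∧
      (i % G ≠ r → (pr B G r i v).totalDegree ≤ 1 + ps G r i) := by
  induction i with
  | zero =>
    intro v _
    have h0 : (pr B G r 0 v).totalDegree = 0 := by
      simp only [pr]
      split_ifs <;> simp
    rw [h0]
    exact ⟨by omega, fun _ => by omega⟩
  | succ i ih =>
    intro v hv
    have h1 : (pr B G r (i + 1) v).totalDegree ≤ 2 + ps G r i := by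
      simp only [pr]
      apply totalDegree_sum_le
      intro u _
      split_ifs with hu hc
      · refine (totalDegree_mul _ _).trans ?_
        rw [totalDegree_X]
        have := lb_deg B G r u v
        omega
      · refine (totalDegree_mul _ _).trans ?_
        have h2 := lb_deg B G r u v
        have hui : B.layer u = i := by omega
        have h3 := (ih u hui).2 (by rw [← hui]; exact hc)
        omega
      · simp
    have h2 := ps_lt (r := r) hG i
    refine ⟨by omega, fun h => ?_⟩
    rw [ps_succ hG hr i h]
    omega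

theorem fx_deg (B : ABP K τ s) {G r : ℕ} (hG : 1 ≤ G) (hr : r < G) (u : Fin s) :
    (fx B G r u).totalDegree ≤ 1 + ps G r (B.layer u) := by
  unfold fx
  split_ifs with hc
  · rw [totalDegree_X]
    omega
  · exact (pr_deg B hG hr _ u rfl).2 hc

theorem po_deg (B : ABP K τ s) {G r : ℕ} (hG : 1 ≤ G) (hr : r < G) (j : ℕ) : ∀ v,
    (po B G r j v).totalDegree ≤ G + 1 ∧
      (∀ i, B.layer v = i + 1 → (i + 1) % G ≠ r → (po B G r j v).totalDegree ≤ G - ps G r i) := by
  induction j with
  | zero =>
    intro v
    have h0 : (po B G r 0 v).totalDegree = 0 := by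
      simp only [po]
      split_ifs <;> simp
    rw [h0]
    exact ⟨by omega, fun _ _ _ => by omega⟩
  | succ j ih =>
    intro v
    have h1 : (po B G r (j + 1) v).totalDegree ≤ 1 + (G - ps G r (B.layer v)) := by
      simp only [po]
      apply totalDegree_sum_le
      intro u _
      have hps := ps_lt (r := r) hG (B.layer v)
      split_ifs with hu hc
      · refine (totalDegree_mul _ _).trans ?_
        rw [totalDegree_X]
        have := lb_deg B G r v u
        omega
      · refine (totalDegree_mul _ _).trans ?_
        have h2 := lb_deg B G r v u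
        have h3 := (ih u).2 (B.layer v) hu (by rw [← hu]; exact hc)
        omega
      · simp
    refine ⟨by omega, fun i hi h => ?_⟩
    have h2 := ps_succ hG hr i h
    have h3 := ps_lt (r := r) hG (i + 1)
    rw [hi, h2] at h1
    rw [h2] at h3
    omega

theorem bx_deg (B : ABP K τ s) {G r : ℕ} (hG : 1 ≤ G) (hr : r < G) (u : Fin s) (i : ℕ)
    (hu : B.layer u = i + 1) : (bx B G r u).totalDegree ≤ G - ps G r i := by
  have hps := ps_lt (r := r) hG i
  unfold bx
  split_ifs with hc
  · rw [totalDegree_X]
    omega
  · exact (po_deg B hG hr _ u).2 i hu (by rw [← hu]; exact hc)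

/-! ### the derivative -/

/-- the contribution of the edges from layer `a` to layer `a + 1` -/
noncomputable def Ed (B : ABP K τ s) (i : τ) (a : ℕ) : MvPolynomial τ K :=
  ∑ u, ∑ w, if B.layer u = a ∧ B.layer w = a + 1 then
    B.fwd a u * pderiv i (B.label u w) * bw B (B.layer B.sink - (a + 1)) w else 0

theorem deriv_step (B : ABP K τ s) (i : τ) (a : ℕ) (ha : a < B.layer B.sink) :
    ∑ w, (if B.layer w = a + 1 then
      pderiv i (B.fwd (a + 1) w) * bw B (B.layer B.sink - (a + 1)) w else 0) =
    ∑ u, (if B.layer u = a then pderiv i (B.fwd a u) * bw B (B.layer B.sink - a) u else 0) +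
      Ed B i a := by
  classical
  have hL : B.layer B.sink - a = (B.layer B.sink - (a + 1)) + 1 := by omega
  set M := B.layer B.sink - (a + 1) with hM
  have h1 : ∀ u, (if B.layer u = a then pderiv i (B.fwd a u) * bw B (B.layer B.sink - a) u else 0)
      = ∑ w, if B.layer u = a ∧ B.layer w = a + 1 then
          pderiv i (B.fwd a u) * B.label u w * bw B M w else 0 := by
    intro u
    by_cases hu : B.layer u = a
    · rw [if_pos hu, hL]
      simp only [bw]
      rw [Finset.mul_sum]
      apply Finset.sum_congr rfl
      intro w _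
      by_cases hw : B.layer w = a + 1
      · rw [if_pos (by omega), if_pos ⟨hu, hw⟩]
        ring
      · rw [if_neg (by omega), if_neg (fun h => hw h.2), mul_zero]
    · rw [if_neg hu]
      symm
      apply Finset.sum_eq_zero
      intro w _
      rw [if_neg (fun h => hu h.1)]
  rw [Finset.sum_congr rfl (fun u _ => h1 u)]
  unfold Ed
  rw [← hM, ← Finset.sum_add_distrib, ]
  have h2 : ∀ w, (if B.layer w = a + 1 then pderiv i (B.fwd (a + 1) w) * bw B M w else 0)
      = ∑ u, if B.layer u = a ∧ B.layer w = a + 1 then
          (pderiv i (B.fwd a u) * B.label u w + B.fwd a u * pderiv i (B.label u w)) * bw B M w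
          else 0 := by
    intro w
    by_cases hw : B.layer w = a + 1
    · rw [if_pos hw]
      simp only [ABP.fwd]
      rw [map_sum, Finset.sum_mul]
      apply Finset.sum_congr rfl
      intro u _
      by_cases hu : B.layer u = a
      · rw [if_pos (by omega), if_pos ⟨hu, hw⟩, Derivation.leibniz]
        simp only [smul_eq_mul]
        ring
      · rw [if_neg (by omega), if_neg (fun h => hu h.1), map_zero, zero_mul]
    · rw [if_neg hw]
      symm
      apply Finset.sum_eq_zero
      intro u _
      rw [if_neg (fun h => hw h.2)]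
  rw [Finset.sum_congr rfl (fun w _ => h2 w), Finset.sum_comm]
  apply Finset.sum_congr rfl
  intro u _
  rw [← Finset.sum_add_distrib]
  apply Finset.sum_congr rfl
  intro w _
  split_ifs
  · ring
  · simp

theorem deriv_value (B : ABP K τ s) (i : τ) :
    pderiv i B.value = ∑ a ∈ range (B.layer B.sink), Ed B i a := by
  classical
  have h : ∀ a ≤ B.layer B.sink,
      ∑ u, (if B.layer u = a then pderiv i (B.fwd a u) * bw B (B.layer B.sink - a) u else 0) =
        ∑ a' ∈ range a, Ed B i a' := by
    intro a
    induction a with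
    | zero =>
      intro _
      rw [Finset.sum_range_zero]
      apply Finset.sum_eq_zero
      intro u _
      have : pderiv i (B.fwd 0 u) = 0 := by
        simp only [ABP.fwd]
        split_ifs <;> simp
      rw [this, zero_mul]
      split_ifs <;> rfl
    | succ a ih =>
      intro ha
      rw [Finset.sum_range_succ, ← ih (by omega)]
      exact deriv_step B i a (by omega)
  rw [← h _ le_rfl]
  rw [Finset.sum_eq_single B.sink]
  · rw [if_pos rfl, Nat.sub_self]
    simp only [bw, if_true, mul_one]
    rfl
  · intro u _ hu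
    rw [Nat.sub_self]
    simp only [bw, if_neg hu, mul_zero]
    split_ifs <;> rfl
  · intro h
    exact absurd (Finset.mem_univ _) h

theorem abp_bezout [Fintype τ] [DecidableEq τ]
    (B : ABP K τ s) (G : ℕ) (hG : 1 ≤ G) (b : τ → K) (S : Finset (τ → K))
    (hS : ∀ p ∈ S, (∀ i, eval p (pderiv i B.value) = b i) ∧
      (Matrix.of fun i j => eval p (pderiv j (pderiv i B.value))).det ≠ 0) :
    S.card ≤ (G + 1) ^ (Fintype.card τ + 2 * (s / G)) := by
  classical
  -- the residue class
  obtain ⟨r, hr, hcard⟩ : ∃ r ∈ range G,
      ((univ : Finset (Fin s)).filter (fun w => B.layer w % G = r)).card < s / G + 1 := by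
    apply Finset.exists_card_fiber_lt_of_card_lt_mul
    rw [Finset.card_univ, Fintype.card_fin, Finset.card_range]
    exact Nat.lt_mul_div_succ s (by omega)
  rw [Finset.mem_range] at hr
  have hcard' : Fintype.card (Cs B G r) ≤ s / G := by
    rw [Fintype.card_subtype]
    omega
  -- the equations
  let Hh : τ → MvPolynomial (τ ⊕ (Cs B G r ⊕ Cs B G r)) K := fun i =>
    ∑ a ∈ range (B.layer B.sink), (∑ u, ∑ w, if B.layer u = a ∧ B.layer w = a + 1 then
      fx B G r u * rename Sum.inl (pderiv i (B.label u w)) * bx B G r w else 0) - C (b i)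
  have hGeval1 : ∀ i v, B.layer v = i →
      aeval (Sum.elim X (Gc B G r)) (pr B G r i v) = B.fwd i v := by
    intro i v hv
    have := pr_eval B G r (R := MvPolynomial τ K) X (Gc B G r) i (by
      intro u _
      rw [aeval_X_left_apply]
      rfl) i le_rfl v hv
    rwa [aeval_X_left_apply] at this
  have hGeval2 : ∀ j v, B.layer v + j = B.layer B.sink →
      aeval (Sum.elim X (Gc B G r)) (po B G r j v) = bw B j v := by
    intro j v hv
    have := po_eval B G r (R := MvPolynomial τ K) X (Gc B G r) j (by
      intro u hu _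
      rw [aeval_X_left_apply]
      simp only [Gc]
      rw [if_pos hu]) j le_rfl v hv
    rwa [aeval_X_left_apply] at this
  have hfx : ∀ u, aeval (Sum.elim X (Gc B G r)) (fx B G r u) = B.fwd (B.layer u) u := by
    intro u
    unfold fx
    split_ifs with hc
    · rw [aeval_X]
      rfl
    · exact hGeval1 _ u rfl
  have hbx : ∀ u, B.layer u ≤ B.layer B.sink →
      aeval (Sum.elim X (Gc B G r)) (bx B G r u) = bw B (B.layer B.sink - B.layer u) u := by
    intro u hu
    unfold bx
    split_ifs with hc
    · rw [aeval_X]
      simp only [Sum.elim_inr, Gc]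
      rw [if_pos hu]
    · exact hGeval2 _ u (by omega)
  have hb := seq_bezout (Qc B G r) (Gc B G r) Hh (G + 1) (by omega) ?_ ?_ ?_ ?_
    (fun i => pderiv i B.value - C (b i)) ?_ S ?_
  · refine hb.trans (Nat.pow_le_pow_right (by omega) ?_)
    rw [Fintype.card_sum]
    omega
  · -- degrees of the new equations
    rintro (w | w)
    · exact (pr_deg B hG hr _ w.1 rfl).1
    · simp only [Qc]
      split_ifs
      · exact (po_deg B hG hr _ w.1).1
      · simp
  · intro i
    simp only [Hh]
    refine (totalDegree_sub _ _).trans (max_le ?_ (by simp))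
    apply totalDegree_sum_le
    intro a _
    apply totalDegree_sum_le
    intro u _
    apply totalDegree_sum_le
    intro w _
    split_ifs with h
    · refine (totalDegree_mul _ _).trans ?_
      have h1 := totalDegree_mul (fx B G r u) (rename Sum.inl (pderiv i (B.label u w)) :
        MvPolynomial (τ ⊕ (Cs B G r ⊕ Cs B G r)) K)
      have h2 := fx_deg B hG hr u
      have h3 : (rename Sum.inl (pderiv i (B.label u w)) :
          MvPolynomial (τ ⊕ (Cs B G r ⊕ Cs B G r)) K).totalDegree ≤ 0 := by
        refine (totalDegree_rename_le _ _).trans ?_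
        rw [totalDegree_pderiv_le i _ (B.label_deg u w)]
      have h4 := bx_deg B hG hr w a h.2
      have h5 := ps_lt (r := r) hG a
      rw [h.1] at h2
      omega
    · simp
  · -- uniqueness of the new variables
    intro R _ _ x y hy
    have hf : ∀ N, ∀ u : Cs B G r, B.layer u.1 < N →
        y (Sum.inl u) = aeval x (B.fwd (B.layer u.1) u.1) := by
      intro N
      induction N with
      | zero => intro u hu; omega
      | succ N ih =>
        intro u hu
        rw [hy (Sum.inl u)]
        simp only [Qc]
        exact pr_eval B G r x y N ih _ (by omega) u.1 rfl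
    have hbk : ∀ N, ∀ u : Cs B G r, B.layer u.1 ≤ B.layer B.sink →
        B.layer B.sink - B.layer u.1 < N →
        y (Sum.inr u) = aeval x (bw B (B.layer B.sink - B.layer u.1) u.1) := by
      intro N
      induction N with
      | zero => intro u _ hu; omega
      | succ N ih =>
        intro u hu1 hu
        rw [hy (Sum.inr u)]
        simp only [Qc]
        rw [if_pos hu1]
        exact po_eval B G r x y N ih _ (by omega) u.1 (by omega)
    rintro (u | u)
    · exact hf (B.layer u.1 + 1) u (by omega)
    · by_cases hu : B.layer u.1 ≤ B.layer B.sink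
      · rw [hbk _ u hu (Nat.lt_succ_self _)]
        simp only [Gc]
        rw [if_pos hu]
      · rw [hy (Sum.inr u)]
        simp only [Qc, Gc]
        rw [if_neg hu, if_neg hu, map_zero, map_zero]
  · rintro (u | u)
    · simp only [Qc]
      rw [hGeval1 _ u.1 rfl]
      rfl
    · simp only [Qc, Gc]
      split_ifs with hu
      · exact hGeval2 _ u.1 (by omega)
      · rw [map_zero]
  · intro i
    simp only [Hh]
    rw [map_sub, map_sum, deriv_value]
    congr 1
    · apply Finset.sum_congr rfl
      intro a ha
      rw [Finset.mem_range] at ha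
      unfold Ed
      rw [map_sum]
      apply Finset.sum_congr rfl
      intro u _
      rw [map_sum]
      apply Finset.sum_congr rfl
      intro w _
      split_ifs with h
      · rw [map_mul, map_mul, hfx, hbx w (by omega), aeval_rename]
        have h1 : (Sum.elim X (Gc B G r) ∘ Sum.inl : τ → MvPolynomial τ K) = X := rfl
        rw [h1, aeval_X_left_apply, h.1, h.2]
      · rw [map_zero]
    · rw [aeval_C]
      rfl
  · intro p hp
    obtain ⟨h1, h2⟩ := hS p hp
    constructor
    · intro i
      rw [map_sub, h1 i, eval_C, sub_self]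
    · have : (Matrix.of fun i j => eval p (pderiv j (pderiv i B.value - C (b i)))) =
          Matrix.of fun i j => eval p (pderiv j (pderiv i B.value)) := by
        ext i j
        simp only [Matrix.of_apply]
        rw [map_sub, pderiv_C, sub_zero]
      rw [this]
      exact h2

end Pool.Agent.H72.Bp
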