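import Pool.Agent.H72.Bp.Defs
import Pool.Agent.PerSL2.Sheet
import Pool.Agent.PerSL2.Gl
import Pool.Agent.PerSL2.Pm

/-!
The bundle gadget.
-/

set_option autoImplicit false

namespace Pool.Agent.H72.Bp

open Finset MvPolynomial
open scoped Nat
open Pool.Agent.PerSL2

universe u

namespace BunAux

section basic

variable {R : Type u} [CommRing R] {ρ κ : Type} [Fintype ρ] [DecidableEq ρ] [Fintype κ]
  [DecidableEq κ]

theorem pm_zero_col (A : ρ → κ → R) (c : κ) (h : ∀ r, A r c = 0) : pm A = 0 := by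
  unfold pm
  exact Finset.sum_eq_zero fun σ _ => Finset.prod_eq_zero (Finset.mem_univ c) (h _)

theorem pm_zero_row (A : ρ → κ → R) (r : ρ) (h : ∀ c, A r c = 0) : pm A = 0 := by
  unfold pm
  refine Finset.sum_eq_zero fun σ _ => Finset.prod_eq_zero (Finset.mem_univ (σ.symm r)) ?_
  rw [Equiv.apply_symm_apply]
  exact h _

end basic

theorem pm_delta_block {R : Type u} [CommRing R] {Q : Type} [Fintype Q] [DecidableEq Q] {m : ℕ} :
    pm (fun (x y : Q × Fin m) => if x.1 = y.1 then (1 : R) else 0) =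
      (m ! : R) ^ Fintype.card Q := by
  classical
  have h1 := GlAux.coeff_chi (R := R) (ρ := Empty) (I := Fin m) (univ : Finset Q) m
    (Fintype.card_fin m) 1 univ (Finset.subset_univ _)
  have h2 : (univ : Finset (Empty ⊕ Q × Fin m)) \ GlAux.bl Empty (Fin m) univ = ∅ := by
    ext x
    rw [Finset.mem_sdiff, GlAux.mem_bl]
    constructor
    · rintro ⟨-, h⟩
      exfalso
      apply h
      rcases x with x | ⟨q, i⟩
      · exact x.elim
      · exact ⟨q, mem_univ _, i, rfl⟩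
    · intro h
      exact absurd h (Finset.notMem_empty _)
  have h3 : Pool.Agent.H10.PerSL.Gad.ind (∅ : Finset (Empty ⊕ Q × Fin m)) = 0 := by
    simp [Pool.Agent.H10.PerSL.Gad.ind]
  rw [h2, h3, coeff_zero_one, mul_one, mul_one, Finset.card_univ] at h1
  rw [← h1]
  rw [← pm_reindex (Equiv.emptySum Empty (Q × Fin m)) (Equiv.refl (Q × Fin m))]
  refine (Pool.Agent.H10.PerSL.Gad.perm_coeff
    (fun (x : Empty ⊕ Q × Fin m) (y : Q × Fin m) =>
      if ((Equiv.emptySum Empty (Q × Fin m)) x).1 = ((Equiv.refl (Q × Fin m)) y).1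
        then (1 : R) else 0)).trans ?_
  rw [Fintype.prod_prod_type]
  congr 1
  apply Finset.prod_congr rfl
  intro q _
  have h4 : ∀ v : Fin m, (∑ x : Empty ⊕ Q × Fin m,
      C (if ((Equiv.emptySum Empty (Q × Fin m)) x).1 =
        ((Equiv.refl (Q × Fin m)) (q, v)).1 then (1 : R) else 0) *
        (X x : MvPolynomial (Empty ⊕ Q × Fin m) R)) = GlAux.chi R Empty (Fin m) q := by
    intro v
    rw [Fintype.sum_sum_type, Finset.univ_eq_empty, Finset.sum_empty, zero_add,
      Fintype.sum_prod_type, Finset.sum_eq_single q]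
    · unfold GlAux.chi
      apply Finset.sum_congr rfl
      intro i _
      have : ((Equiv.emptySum Empty (Q × Fin m)) (Sum.inr (q, i))).1 =
        ((Equiv.refl (Q × Fin m)) (q, v)).1 := rfl
      rw [if_pos this, map_one, one_mul]
    · intro q' _ hq'
      apply Finset.sum_eq_zero
      intro i _
      have : ¬ ((Equiv.emptySum Empty (Q × Fin m)) (Sum.inr (q', i))).1 =
        ((Equiv.refl (Q × Fin m)) (q, v)).1 := hq'
      rw [if_neg this, map_zero, zero_mul]
    · intro h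
      exact absurd (mem_univ q) h
  simp only [h4]
  rw [Finset.prod_const, Finset.card_univ, Fintype.card_fin]

/-- moving the last summand -/
def sw (A B C : Type) : (A ⊕ C) ⊕ B ≃ A ⊕ (B ⊕ C) where
  toFun
    | Sum.inl (Sum.inl a) => Sum.inl a
    | Sum.inl (Sum.inr c) => Sum.inr (Sum.inr c)
    | Sum.inr b => Sum.inr (Sum.inl b)
  invFun
    | Sum.inl a => Sum.inl (Sum.inl a)
    | Sum.inr (Sum.inr c) => Sum.inl (Sum.inr c)
    | Sum.inr (Sum.inl b) => Sum.inr b
  left_inv x := by rcases x with (a | c) | b <;> rfl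
  right_inv x := by rcases x with a | (b | c) <;> rfl

/-- moving the selecting rows to the front -/
def mv (A B C : Type) : B ⊕ (A ⊕ C) ≃ (A ⊕ B) ⊕ C where
  toFun
    | Sum.inl b => Sum.inl (Sum.inr b)
    | Sum.inr (Sum.inl a) => Sum.inl (Sum.inl a)
    | Sum.inr (Sum.inr c) => Sum.inr c
  invFun
    | Sum.inl (Sum.inl a) => Sum.inr (Sum.inl a)
    | Sum.inl (Sum.inr b) => Sum.inl b
    | Sum.inr c => Sum.inr (Sum.inr c)
  left_inv x := by rcases x with b | (a | c) <;> rfl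
  right_inv x := by rcases x with (a | b) | c <;> rfl

/-- exchange of the last two summands -/
def ex (A B C : Type) : (A ⊕ C) ⊕ B ≃ (A ⊕ B) ⊕ C where
  toFun
    | Sum.inl (Sum.inl a) => Sum.inl (Sum.inl a)
    | Sum.inl (Sum.inr c) => Sum.inr c
    | Sum.inr b => Sum.inl (Sum.inr b)
  invFun
    | Sum.inl (Sum.inl a) => Sum.inl (Sum.inl a)
    | Sum.inr c => Sum.inl (Sum.inr c)
    | Sum.inl (Sum.inr b) => Sum.inr b
  left_inv x := by rcases x with (a | c) | b <;> rfl
  right_inv x := by rcases x with (a | b) | c <;> rfl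

section defs

variable {K R : Type u} [Field K] [CommRing R] [Algebra K R] {Q I J ρ κ : Type} [DecidableEq Q]

/-- the old part of the matrix for the first application -/
def W1 {m : ℕ} (ζ : K) (W : ρ → κ → R) (NB : Q → J → ρ → R) :
    ρ ⊕ (Q × Fin m) → κ ⊕ (Q × J) → R
  | Sum.inl r, Sum.inl c => W r c
  | Sum.inl r, Sum.inr (q, j) => NB q j r
  | Sum.inr _, Sum.inl _ => 0
  | Sum.inr (q, v), Sum.inr (q', _) => if q = q' then -(algebraMap K R (ζ ^ (v : ℕ))) else 0

/-- the selecting columns for the first application -/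
def b1 (R : Type u) [CommRing R] {Q ρ : Type} [DecidableEq Q] (m : ℕ) (q : Q) :
    ρ ⊕ (Q × Fin m) → R
  | Sum.inl _ => 0
  | Sum.inr (q', _) => if q' = q then 1 else 0

/-- the rows of the bundles -/
def N1 {R : Type u} [CommRing R] {Q I J κ : Type} (NA : Q → I → κ → R) (q : Q) (i : I) :
    κ ⊕ (Q × J) → R
  | Sum.inl c => NA q i c
  | Sum.inr _ => 0

/-- the old part for the second application -/
def W2 {R : Type u} [CommRing R] {Q I ρ κ : Type} (m : ℕ) (T : Finset Q) (W : ρ → κ → R)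
    (NA : Q → I → κ → R) :
    κ ⊕ ({q // q ∈ T} × Fin m) → ρ ⊕ ({q // q ∈ T} × I) → R
  | Sum.inl c, Sum.inl r => W r c
  | Sum.inl c, Sum.inr (q, i) => NA q i c
  | Sum.inr _, _ => 0

/-- the selecting rows for the second application -/
def b2 (R : Type u) [CommRing R] {Q κ : Type} [DecidableEq Q] (m : ℕ) (T : Finset Q) (q : Q) :
    κ ⊕ ({q // q ∈ T} × Fin m) → R
  | Sum.inl _ => 0
  | Sum.inr (q', _) => if q = q' then 1 else 0

/-- the columns of the bundles -/
def N2 {R : Type u} [CommRing R] {Q I J ρ : Type} (T : Finset Q) (NB : Q → J → ρ → R) (q : Q)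
    (j : J) : ρ ⊕ ({q // q ∈ T} × I) → R
  | Sum.inl r => NB q j r
  | Sum.inr _ => 0

end defs

section steps

variable {K R : Type u} [Field K] [CommRing R] [Algebra K R] {Q I J ρ κ : Type}
    [Fintype Q] [DecidableEq Q] [Fintype I] [DecidableEq I] [Fintype J] [DecidableEq J]
    [Fintype ρ] [DecidableEq ρ] [Fintype κ] [DecidableEq κ] {m : ℕ}

theorem step1 (ζ : K) (W : ρ → κ → R) (NA : Q → I → κ → R) (NB : Q → J → ρ → R) :
    pm (buM (m := m) ζ W NA NB) =
      pm (glM (k := m) ζ (W1 (m := m) ζ W NB) (b1 R m) (N1 (J := J) NA)) := by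
  rw [← pm_reindex (sw ρ (Q × I) (Q × Fin m)) (Equiv.sumAssoc κ (Q × J) (Q × Fin m))
    (buM (m := m) ζ W NA NB)]
  congr 1
  funext r c
  rcases r with (r | ⟨q, v⟩) | ⟨q, i⟩ <;> rcases c with (c | ⟨q', j⟩) | ⟨q', v'⟩ <;> rfl

theorem step2 (ζ : K) (T : Finset Q) (W : ρ → κ → R) (NA : Q → I → κ → R) (NB : Q → J → ρ → R) :
    pm (glQ (k := m) T (W1 (m := m) ζ W NB) (b1 R m) (N1 (J := J) NA)) =
      pm (glM (k := m) ζ (W2 m T W NA) (b2 R m T) (N2 (I := I) T NB)) := by
  rw [← pm_transpose, ← pm_reindex (ex κ (Q × J) ({q // q ∈ T} × Fin m))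
    (ex ρ ({q // q ∈ T} × I) (Q × Fin m)).symm]
  congr 1
  funext c r
  rcases c with (c | ⟨q', v'⟩) | ⟨q', j⟩ <;> rcases r with (r | ⟨q, i⟩) | ⟨q, v⟩
  · rfl
  · rfl
  · rfl
  · rfl
  · rfl
  · rfl
  · rfl
  · rfl
  · change (if q = q' then -(algebraMap K R (ζ ^ (v : ℕ))) else 0) =
      if q' = q then -(algebraMap K R (ζ ^ (v : ℕ))) else 0
    simp only [eq_comm]

theorem step3 (T : Finset Q) (W : ρ → κ → R) (NA : Q → I → κ → R)
    (NB : Q → J → ρ → R) :
    pm (glQ (k := m) T (W2 m T W NA) (b2 R m T) (N2 (I := I) T NB)) =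
      (m ! : R) ^ T.card * pm (buT T W NA NB) := by
  have hc : (m ! : R) ^ T.card = (m ! : R) ^ Fintype.card {q // q ∈ T} := by
    rw [Fintype.card_coe]
  rw [← pm_transpose (buT T W NA NB), hc, ← pm_delta_block (Q := {q // q ∈ T}) (m := m),
    ← pm_reindex (mv κ ({q // q ∈ T} × Fin m) ({q // q ∈ T} × J))
      (Equiv.sumComm ({q // q ∈ T} × Fin m) (ρ ⊕ ({q // q ∈ T} × I))), pm_block]
  · congr 1
    · congr 1
      funext x y
      rcases x with ⟨⟨q, hq⟩, v⟩
      rcases y with ⟨⟨q', hq'⟩, v'⟩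
      change (if q' = q then (1 : R) else 0) = if (⟨q, hq⟩ : {q // q ∈ T}) = ⟨q', hq'⟩ then 1 else 0
      simp only [Subtype.mk.injEq, eq_comm]
    · congr 1
      funext c r
      rcases c with c | ⟨⟨q, hq⟩, j⟩ <;> rcases r with r | ⟨⟨q', hq'⟩, i⟩ <;> rfl
  · rfl
  · rintro (c | ⟨⟨q, hq⟩, j⟩) ⟨⟨q', hq'⟩, v⟩
    · rfl
    · rfl

omit [Fintype Q] in
theorem step4 (hm : 0 < m) (T T' : Finset Q) (hT : T' ≠ T) (W : ρ → κ → R) (NA : Q → I → κ → R)
    (NB : Q → J → ρ → R) :
    pm (glQ (k := m) T' (W2 m T W NA) (b2 R m T) (N2 (I := I) T NB)) = 0 := by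
  by_cases h : ∃ q ∈ T, q ∉ T'
  · obtain ⟨q, hq, hq'⟩ := h
    apply pm_zero_row _ (Sum.inl (Sum.inr (⟨q, hq⟩, ⟨0, hm⟩)))
    rintro ((r | ⟨q, i⟩) | ⟨⟨q1, hq1⟩, v⟩)
    · rfl
    · rfl
    · change (if q1 = q then (1 : R) else 0) = 0
      rw [if_neg]
      rintro rfl
      exact hq' hq1
  · have h' : ∃ q ∈ T', q ∉ T := by
      by_contra hcon
      push Not at h hcon
      exact hT (Finset.Subset.antisymm hcon h)
    obtain ⟨q, hq, hq'⟩ := h'
    apply pm_zero_col _ (Sum.inr (⟨q, hq⟩, ⟨0, hm⟩))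
    rintro ((r | ⟨⟨q1, hq1⟩, v⟩) | ⟨q, i⟩)
    · rfl
    · change (if q = q1 then (1 : R) else 0) = 0
      rw [if_neg]
      rintro rfl
      exact hq' hq1
    · rfl

end steps

end BunAux

open BunAux

theorem bundle {K R : Type u} [Field K] [CommRing R] [Algebra K R] {Q I J ρ κ : Type}
    [Fintype Q] [DecidableEq Q] [Fintype I] [DecidableEq I] [Fintype J] [DecidableEq J]
    [Fintype ρ] [DecidableEq ρ] [Fintype κ] [DecidableEq κ] {m : ℕ} (hI : Fintype.card I = m)
    (hJ : Fintype.card J = m) (hm : 0 < m) {ζ : K} (hζ : IsPrimitiveRoot ζ m)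
    (W : ρ → κ → R) (NA : Q → I → κ → R) (NB : Q → J → ρ → R) :
    pm (buM (m := m) ζ W NA NB) = ∑ T : Finset Q,
      algebraMap K R (((m ! : K) ^ 2) ^ (univ \ T).card * (m ! : K) ^ T.card) *
        pm (buT T W NA NB) := by
  rw [step1, gl hI hm hζ]
  apply Finset.sum_congr rfl
  intro T _
  rw [step2, gl hJ hm hζ, Finset.sum_eq_single T]
  · rw [step3]
    have e3 : (m ! : R) = algebraMap K R (m ! : K) := by simp
    rw [e3, ← map_pow, ← mul_assoc, ← mul_assoc, ← map_mul, ← map_mul]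
    congr 2
    have h1 : ((-1 : K) ^ (univ \ T).card) * (-1) ^ (univ \ T).card = 1 := by
      rw [← mul_pow]
      simp
    linear_combination ((m ! : K) ^ 2) ^ (univ \ T).card * (m ! : K) ^ T.card * h1
  · intro T' _ hT'
    rw [step4 hm T T' hT', mul_zero]
  · intro h
    exact absurd (mem_univ T) h

end Pool.Agent.H72.Bp
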