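import Pool.Agent.H72.Bp.Defs
import Pool.Agent.PerSL2.Crit

/-!
M11: critical points of the direct sum of elementary symmetric polynomials, with any index type of
cardinality `2 d`.
-/

set_option autoImplicit false

namespace Pool.Agent.H72.Bp

open Finset MvPolynomial
open scoped Nat
open Pool.Agent.H10.PerSL (es)
open Pool.Agent.H53.AC Pool.Agent.PerSL2

universe u v w

namespace Cri

open Pool.Agent.H10.PerSL (es_erase es_erase_one es_erase_top es_erase_two es_types es_equiv
  es_eq_zero map_es count_balanced)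

section point

variable {K : Type u} [Field K] [CharZero K] {d : ℕ} [NeZero d] {ζ : K}

variable {I : Type} [Fintype I] [DecidableEq I] {c : I → ZMod d}

theorem es_bal (hc : ∀ π, (univ.filter (fun j => c j = π)).card = 2) (a : ℕ) :
    es univ a (fun j => ζ ^ (c j).val) = es univ a (fun p : ZMod d × Fin 2 => ζ ^ p.1.val) := by
  classical
  refine es_types (T := ZMod d) (c := c) (c' := fun p : ZMod d × Fin 2 => p.1) ?_ a
    (fun π => ζ ^ π.val)
  ext π
  rw [Multiset.count_map, Multiset.count_map]
  have h1 := hc π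
  have h2 : (univ.filter (fun j => c j = π)).card =
      Multiset.card (Multiset.filter (fun j => π = c j) (univ : Finset I).val) := by
    rw [Finset.card_def, Finset.filter_val]
    congr 1
    exact Multiset.filter_congr fun j _ => eq_comm
  have h3 : Multiset.card (Multiset.filter (fun p : ZMod d × Fin 2 => π = p.1)
      (univ : Finset (ZMod d × Fin 2)).val) = 2 := by
    rw [← Finset.filter_val, ← Finset.card_def]
    have : univ.filter (fun p : ZMod d × Fin 2 => π = p.1) =
        ({π} : Finset (ZMod d)) ×ˢ (univ : Finset (Fin 2)) := by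
      ext p
      simp only [mem_filter, mem_univ, true_and, mem_product, mem_singleton, and_true]
      exact eq_comm
    rw [this, card_product]
    simp
  rw [← h2, h1, h3]

theorem es_bal_zero (hζ : IsPrimitiveRoot ζ d)
    (hc : ∀ π, (univ.filter (fun j => c j = π)).card = 2) (a : ℕ) (ha : 0 < a) (had : a < d) :
    es univ a (fun j => ζ ^ (c j).val) = 0 := by
  rw [es_bal hc, ref_zero hζ a ha had]

theorem grad_bal (hd : 0 < d) (hζ : IsPrimitiveRoot ζ d)
    (hc : ∀ π, (univ.filter (fun j => c j = π)).card = 2) (i : I) :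
    es (univ.erase i) d (fun j => ζ ^ (c j).val) =
      es univ d (fun p : ZMod d × Fin 2 => ζ ^ p.1.val) + (-1) ^ d := by
  rw [es_erase_top hd (fun a ha had => es_bal_zero hζ hc a ha had) i, es_bal hc]
  congr 1
  rw [neg_pow, ← pow_mul, mul_comm, mul_comm _ d, pow_mul, hζ.pow_eq_one, one_pow, one_mul]

theorem hess_bal (hζ : IsPrimitiveRoot ζ d)
    (hc : ∀ π, (univ.filter (fun j => c j = π)).card = 2) (k : ℕ) (hk : d = k + 1)
    (i l : I) (hil : l ≠ i) :
    es ((univ.erase i).erase l) k (fun j => ζ ^ (c j).val) =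
      if c l = c i then (d : K) * (-ζ ^ (c i).val) ^ k else 0 := by
  rw [es_erase_two (fun a ha had => es_bal_zero hζ hc a ha had) hil k (by omega)]
  split_ifs with h
  · rw [h]
    have h1 : ∀ p ∈ antidiagonal k, (-ζ ^ (c i).val) ^ p.1 * (-ζ ^ (c i).val) ^ p.2 =
        (-ζ ^ (c i).val) ^ k := by
      intro p hp
      rw [← pow_add, mem_antidiagonal.1 hp]
    have h3 : k + 1 = d := hk.symm
    rw [sum_congr rfl h1, sum_const, Finset.Nat.card_antidiagonal, nsmul_eq_mul, h3]
  · have hne : -ζ ^ (c i).val - -ζ ^ (c l).val ≠ 0 := by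
      intro h1
      apply h
      have h2 : ζ ^ (c l).val = ζ ^ (c i).val := by linear_combination h1
      exact ZMod.val_injective d (hζ.pow_inj (ZMod.val_lt _) (ZMod.val_lt _) h2)
    refine (mul_left_cancel₀ hne ?_)
    rw [mul_zero]
    have h1 := (Commute.all (-ζ ^ (c i).val) (-ζ ^ (c l).val)).mul_geom_sum₂ (k + 1)
    have h2 : ∀ z : ZMod d, (-ζ ^ z.val) ^ (k + 1) = (-1) ^ d := by
      intro z
      rw [← hk, neg_pow, ← pow_mul, mul_comm z.val d, pow_mul, hζ.pow_eq_one, one_pow, mul_one]
    rw [h2, h2, sub_self] at h1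
    rw [← h1]
    congr 1
    rw [Finset.Nat.sum_antidiagonal_eq_sum_range_succ_mk]
    refine sum_congr rfl fun j hj => ?_
    have : k + 1 - 1 - j = k - j := by omega
    rw [this]

end point

theorem count_bal {d : ℕ} [NeZero d] {I : Type} [Fintype I] [DecidableEq I]
    (hI : Fintype.card I = 2 * d) :
    (2 * d)! ≤ (univ.filter (fun c : I → ZMod d =>
      ∀ π, (univ.filter (fun j => c j = π)).card = 2)).card * 2 ^ d := by
  classical
  have h := count_balanced (T := ZMod d) (2 * d) 2 (by rw [ZMod.card])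
  rw [ZMod.card] at h
  refine h.trans (Nat.mul_le_mul_right _ ?_)
  let e : I ≃ Fin (2 * d) := Fintype.equivFinOfCardEq hI
  refine Finset.card_le_card_of_injOn (fun c j => c (e j)) ?_ ?_
  · intro c hc
    rw [mem_coe, mem_filter] at hc ⊢
    refine ⟨mem_univ _, fun π => ?_⟩
    refine Eq.trans ?_ (hc.2 π)
    refine Finset.card_bij (fun j _ => e j) ?_ ?_ ?_
    · intro j hj
      simpa using hj
    · intro j _ j' _ h
      exact e.injective h
    · intro x hx
      exact ⟨e.symm x, by simpa using hx, by simp⟩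
  · intro c _ c' _ h
    funext x
    have := congrFun h (e.symm x)
    simpa using this

end Cri

/-! ### M11 -/

theorem crit3 {K : Type u} [Field K] [CharZero K] {d : ℕ} (hd : 0 < d) {ζ : K}
    (hζ : IsPrimitiveRoot ζ d) (Ω I : Type) [Fintype Ω] [DecidableEq Ω] [Fintype I]
    [DecidableEq I] (hI : Fintype.card I = 2 * d) :
    ∃ (b : K) (cnt : ℕ) (S : Finset (Ω × I → K)),
      (2 * d)! ≤ cnt * 2 ^ d ∧ S.card = cnt ^ Fintype.card Ω ∧ ∀ p ∈ S,
        (∀ x, eval p (pderiv x (dsum Ω I K (d + 1))) = b) ∧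
        (Matrix.of fun x x' =>
          eval p (pderiv x' (pderiv x (dsum Ω I K (d + 1))))).det ≠ 0 := by
  classical
  have : NeZero d := ⟨hd.ne'⟩
  set Bal : Finset (I → ZMod d) :=
    univ.filter (fun c => ∀ π, (univ.filter (fun j => c j = π)).card = 2) with hBal
  have hcount : (2 * d)! ≤ Bal.card * 2 ^ d := Cri.count_bal hI
  let pt : (Ω → (I → ZMod d)) → (Ω × I → K) :=
    fun c q => ζ ^ (c q.1 q.2).val
  have hpt : Function.Injective pt := by
    intro c c' h
    funext ω j
    exact ZMod.val_injective d (hζ.pow_inj (ZMod.val_lt _) (ZMod.val_lt _) (congrFun h (ω, j)))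
  refine ⟨es univ d (fun p : ZMod d × Fin 2 => ζ ^ p.1.val) + (-1) ^ d, Bal.card,
    (Fintype.piFinset fun _ : Ω => Bal).image pt, hcount, ?_, ?_⟩
  · rw [card_image_of_injective _ hpt, Fintype.card_piFinset, prod_const, card_univ]
  · intro p hp
    obtain ⟨c, hcB, rfl⟩ := mem_image.1 hp
    have hc : ∀ ω, ∀ π, (univ.filter (fun j => c ω j = π)).card = 2 := by
      intro ω
      exact (mem_filter.1 ((Fintype.mem_piFinset.1 hcB) ω)).2
    have hev : ∀ (s : Finset I) (a : ℕ) (ω : Ω),
        eval (pt c) (es s a (fun i => (X (ω, i) : MvPolynomial (Ω × I) K))) =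
          es s a (fun j => ζ ^ (c ω j).val) := by
      intro s a ω
      rw [Pool.Agent.H10.PerSL.map_es]
      simp only [eval_X]
      rfl
    refine ⟨fun x => ?_, ?_⟩
    · rw [pderiv_dsum, hev, Cri.grad_bal hd hζ (hc x.1)]
    · obtain ⟨k, hk⟩ : ∃ k, d = k + 1 := ⟨d - 1, by omega⟩
      have hentry : ∀ x x' : Ω × I,
          eval (pt c) (pderiv x' (pderiv x (dsum Ω I K (d + 1)))) =
          if x'.1 = x.1 ∧ x'.2 ≠ x.2 ∧ c x.1 x'.2 = c x.1 x.2 then
            (d : K) * (-ζ ^ (c x.1 x.2).val) ^ k else 0 := by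
        intro x x'
        have h1 : d + 1 = k + 1 + 1 := by omega
        rw [h1, pderiv_pderiv_dsum]
        by_cases h : x'.1 = x.1 ∧ x'.2 ≠ x.2
        · rw [if_pos h, hev, Cri.hess_bal hζ (hc x.1) k hk x.2 x'.2 h.2]
          by_cases h2 : c x.1 x'.2 = c x.1 x.2
          · rw [if_pos h2, if_pos ⟨h.1, h.2, h2⟩]
          · rw [if_neg h2, if_neg fun h3 => h2 h3.2.2]
        · rw [if_neg h, map_zero, if_neg fun h3 => h ⟨h3.1, h3.2.1⟩]
      intro hdet
      obtain ⟨w, hw0, hw⟩ := Matrix.exists_mulVec_eq_zero_iff.2 hdet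
      apply hw0
      funext x
      -- the partner of `x`
      obtain ⟨l, hl, hlc⟩ : ∃ l : I, l ≠ x.2 ∧ c x.1 l = c x.1 x.2 := by
        have h1 : 1 < (univ.filter (fun j => c x.1 j = c x.1 x.2)).card := by
          rw [hc]; norm_num
        obtain ⟨l, hl, hl'⟩ := exists_mem_ne h1 x.2
        exact ⟨l, hl', (mem_filter.1 hl).2⟩
      have h1 := congrFun hw (x.1, l)
      rw [Matrix.mulVec, dotProduct] at h1
      simp only [Matrix.of_apply, Pi.zero_apply] at h1
      rw [Finset.sum_eq_single x] at h1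
      · rw [hentry, if_pos ⟨rfl, hl.symm, hlc.symm⟩] at h1
        rcases mul_eq_zero.1 h1 with h2 | h2
        · exfalso
          rcases mul_eq_zero.1 h2 with h3 | h3
          · exact hd.ne' (by exact_mod_cast h3)
          · exact pow_ne_zero _ (neg_ne_zero.2 (pow_ne_zero _ (hζ.ne_zero hd.ne'))) h3
        · exact h2
      · intro y _ hy
        rw [hentry, if_neg, zero_mul]
        rintro ⟨h2, h3, h4⟩
        simp only at h2 h3 h4
        -- three elements in a fibre of size two
        have h5 : y.2 ≠ x.2 := fun h6 => hy (Prod.ext h2 h6)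
        have h7 : ({y.2, x.2, l} : Finset I) ⊆
            univ.filter (fun j => c x.1 j = c x.1 x.2) := by
          intro z hz
          simp only [mem_insert, mem_singleton] at hz
          rw [mem_filter]
          refine ⟨mem_univ _, ?_⟩
          rcases hz with rfl | rfl | rfl
          · rw [h4, hlc]
          · rfl
          · exact hlc
        have h8 := card_le_card h7
        rw [hc, card_eq_three.2 ⟨y.2, x.2, l, h5, h3, hl.symm, rfl⟩] at h8
        omega
      · intro h; exact absurd (mem_univ _) h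

end Pool.Agent.H72.Bp
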