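import Pool.Agent.PerSL2.Defs
import Pool.Agent.H53.AC.Defs

/-!
# Algebraic branching programs for the permanent: definitions
-/

set_option autoImplicit false

namespace Pool.Agent.H72.Bp

open MvPolynomial Finset

universe u v

/-- A (layered) algebraic branching program over the field `K` in the variables `σ` with `s`
vertices: every vertex has a layer, the source is in layer `0`, every edge `u → w` has a label of
degree at most one. -/
structure ABP (K : Type u) [Field K] (σ : Type v) (s : ℕ) where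
  /-- the layer of a vertex -/
  layer : Fin s → ℕ
  /-- the source -/
  source : Fin s
  /-- the sink -/
  sink : Fin s
  /-- the labels of the edges -/
  label : Fin s → Fin s → MvPolynomial σ K
  layer_source : layer source = 0
  label_deg : ∀ u w, (label u w).totalDegree ≤ 1

variable {K : Type u} [Field K] {σ : Type v} {s : ℕ}

/-- `B.fwd i w`: the sum over all walks `source = w₀, w₁, …, wᵢ = w`, each step of which leads to
the next layer, of the product of the labels of the steps. -/
noncomputable def ABP.fwd (B : ABP K σ s) : ℕ → Fin s → MvPolynomial σ K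
  | 0, w => if w = B.source then 1 else 0
  | i + 1, w => ∑ u, if B.layer w = B.layer u + 1 then B.fwd i u * B.label u w else 0

/-- The polynomial computed by the program. -/
noncomputable def ABP.value (B : ABP K σ s) : MvPolynomial σ K := B.fwd (B.layer B.sink) B.sink

/-- The approximative (border) branching program size of `f` is at most `s`: there is a polynomial
`F` over `k(ε)`, all of whose coefficients are defined at `ε = 0`, with `F_{ε=0} = f`, which is
computed by a branching program over `k(ε)` with `s` vertices. -/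
def BorderABP {k : Type u} [Field k] {σ : Type v} (f : MvPolynomial σ k) (s : ℕ) : Prop :=
  ∃ F : MvPolynomial σ (RatFunc k),
    (∀ m, Pool.Agent.H53.AC.SpecializesTo (coeff m F) (coeff m f)) ∧
      ∃ B : ABP (RatFunc k) σ s, B.value = F

/-! ### The gadget -/

/-- A matrix `A` with distinguished rows and columns indexed by the positions `P`; `k` further rows
have the entries `a p` in the distinguished columns, `k` further columns have the entries `b p` in
the distinguished rows. -/
def fr {R : Type u} [CommRing R] {ρ κ P : Type} (k : ℕ) (A : ρ ⊕ P → κ ⊕ P → R) (a b : P → R) :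
    (ρ ⊕ P) ⊕ Fin k → (κ ⊕ P) ⊕ Fin k → R
  | Sum.inl r, Sum.inl c => A r c
  | Sum.inl (Sum.inr p), Sum.inr _ => b p
  | Sum.inl (Sum.inl _), Sum.inr _ => 0
  | Sum.inr _, Sum.inl (Sum.inr p) => a p
  | Sum.inr _, Sum.inl (Sum.inl _) => 0
  | Sum.inr _, Sum.inr _ => 0

/-- The bundle gadget. Bundle `q`: rows `(q, i)` with arbitrary content `NA q i`, columns `(q, j)`
with arbitrary content `NB q j`, and `m` selecting columns and `m` selecting rows. -/
def buM {K R : Type u} [Field K] [CommRing R] [Algebra K R] {Q I J ρ κ : Type} [DecidableEq Q]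
    {m : ℕ} (ζ : K) (W : ρ → κ → R) (NA : Q → I → κ → R) (NB : Q → J → ρ → R) :
    ρ ⊕ ((Q × I) ⊕ (Q × Fin m)) → κ ⊕ ((Q × J) ⊕ (Q × Fin m)) → R
  | Sum.inl r, Sum.inl c => W r c
  | Sum.inl r, Sum.inr (Sum.inl (q, j)) => NB q j r
  | Sum.inl _, Sum.inr (Sum.inr _) => 0
  | Sum.inr (Sum.inl (q, i)), Sum.inl c => NA q i c
  | Sum.inr (Sum.inl _), Sum.inr (Sum.inl _) => 0
  | Sum.inr (Sum.inl (q, _)), Sum.inr (Sum.inr (q', v)) =>
      if q = q' then -(algebraMap K R (ζ ^ (v : ℕ))) else 0
  | Sum.inr (Sum.inr _), Sum.inl _ => 0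
  | Sum.inr (Sum.inr (q, v)), Sum.inr (Sum.inl (q', _)) =>
      if q = q' then -(algebraMap K R (ζ ^ (v : ℕ))) else 0
  | Sum.inr (Sum.inr (q, _)), Sum.inr (Sum.inr (q', _)) => if q = q' then 1 else 0

/-- The bundle gadget in which exactly the bundles `q ∈ T` are released. -/
def buT {R : Type u} [CommRing R] {Q I J ρ κ : Type} (T : Finset Q) (W : ρ → κ → R)
    (NA : Q → I → κ → R) (NB : Q → J → ρ → R) :
    ρ ⊕ ({q // q ∈ T} × I) → κ ⊕ ({q // q ∈ T} × J) → R
  | Sum.inl r, Sum.inl c => W r c
  | Sum.inl r, Sum.inr (q, j) => NB q j r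
  | Sum.inr (q, i), Sum.inl c => NA q i c
  | Sum.inr _, Sum.inr _ => 0

/-- One stage: to the matrix `A` with distinguished rows and columns we add new distinguished rows
and columns, and for each state `q` a bundle that leads from the new ones to the old ones with
weights `α q`, `β q`. -/
def stg {K R : Type u} [Field K] [CommRing R] [Algebra K R] {Q P ρ κ : Type} [DecidableEq Q]
    [DecidableEq P] {m : ℕ} (ζ : K) (A : ρ ⊕ P → κ ⊕ P → R) (α β : Q → P → R) :
    ((ρ ⊕ P) ⊕ ((Q × P) ⊕ (Q × Fin m))) ⊕ P → ((κ ⊕ P) ⊕ ((Q × P) ⊕ (Q × Fin m))) ⊕ P → R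
  | Sum.inl r, Sum.inl c => buM ζ A
      (fun q i => Sum.elim (fun _ => 0) (fun p => if i = p then α q i else 0))
      (fun q j => Sum.elim (fun _ => 0) (fun p => if j = p then β q j else 0)) r c
  | Sum.inr p, Sum.inl (Sum.inr (Sum.inl (_, j))) => if p = j then 1 else 0
  | Sum.inr _, Sum.inl _ => 0
  | Sum.inl (Sum.inr (Sum.inl (_, i))), Sum.inr p => if i = p then 1 else 0
  | Sum.inl _, Sum.inr _ => 0
  | Sum.inr _, Sum.inr _ => 0

/-- Rows `i ∈ P` with two nonzero entries `1`, `α i`, in the columns `i` of the two families. -/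
def mgM {R : Type u} [CommRing R] {ρ κ P : Type} [DecidableEq P] (A : ρ → κ → R)
    (M N : ρ → P → R) (α : P → R) : ρ ⊕ P → κ ⊕ (P ⊕ P) → R
  | Sum.inl r, Sum.inl c => A r c
  | Sum.inl r, Sum.inr (Sum.inl p) => M r p
  | Sum.inl r, Sum.inr (Sum.inr p) => N r p
  | Sum.inr _, Sum.inl _ => 0
  | Sum.inr i, Sum.inr (Sum.inl p) => if i = p then 1 else 0
  | Sum.inr i, Sum.inr (Sum.inr p) => if i = p then α i else 0

/-- The two columns are merged. -/
def mgR {R : Type u} [CommRing R] {ρ κ P : Type} (A : ρ → κ → R)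
    (M N : ρ → P → R) (α : P → R) : ρ → κ ⊕ P → R
  | r, Sum.inl c => A r c
  | r, Sum.inr p => N r p + α p * M r p

/-- The variables, weighted: row `i`, column `c = i + p` (`i`, `p` with coordinates `< h`) carries
`t ^ |p|² * y p i`. -/
def wR {R : Type u} [CommRing R] {r h : ℕ} (t : R) (y : (Fin r → Fin h) → (Fin r → Fin h) → R)
    (i c : Fin r → Fin (2 * h)) : R :=
  if H : (∀ l, (i l : ℕ) < h) ∧ ∀ l, (i l : ℕ) ≤ c l ∧ (c l : ℕ) - i l < h then
    t ^ (∑ l, ((c l : ℕ) - i l) ^ 2) *
      y (fun l => ⟨(c l : ℕ) - i l, (H.2 l).2⟩) (fun l => ⟨(i l : ℕ), H.1 l⟩)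
  else 0

end Pool.Agent.H72.Bp
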