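import Pool.Agent.H72.Bp.Bez
import Pool.Agent.H10.PerSL.Degree

/-! The degree bound for approximative branching programs. -/

set_option autoImplicit false

namespace Pool.Agent.H72.Bp

open Finset MvPolynomial
open Pool.Agent.H10.PerSL (hensel)

universe u v

theorem abp_degree_bound {K : Type u} [Field K] {L : Type u} [Field L]
    [Algebra (PowerSeries K) L]
    (hinj : Function.Injective (algebraMap (PowerSeries K) L))
    {τ : Type v} [Fintype τ] [DecidableEq τ] {s : ℕ} (B : ABP L τ s) (G : ℕ) (hG : 1 ≤ G)
    (Φ : MvPolynomial τ (PowerSeries K)) (c₀ c₁ : L) (hc₁ : c₁ ≠ 0)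
    (hΦ : B.value = C c₀ + C c₁ * map (algebraMap (PowerSeries K) L) Φ) (b : τ → K)
    (S : Finset (τ → K))
    (hS : ∀ p ∈ S,
      (∀ i, eval p (pderiv i (map (PowerSeries.constantCoeff (R := K)) Φ)) = b i) ∧
      (Matrix.of fun i j =>
        eval p (pderiv j (pderiv i (map (PowerSeries.constantCoeff (R := K)) Φ)))).det ≠ 0) :
    S.card ≤ (G + 1) ^ (Fintype.card τ + 2 * (s / G)) := by
  classical
  let ι := algebraMap (PowerSeries K) L
  let cc := PowerSeries.constantCoeff (R := K)
  let F : τ → MvPolynomial τ (PowerSeries K) := fun i => pderiv i Φ - C (PowerSeries.C (b i))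
  have hFred : ∀ i, map cc (F i) = pderiv i (map cc Φ) - C (b i) := by
    intro i
    simp only [F, cc, map_sub, map_C, PowerSeries.constantCoeff_C, pderiv_map]
  have hlift : ∀ p : τ → K, ∃ q : τ → PowerSeries K, p ∈ S →
      ((∀ i, eval q (F i) = 0) ∧ (∀ i, cc (q i) = p i)) := by
    intro p
    by_cases hp : p ∈ S
    · obtain ⟨h1, h2⟩ := hS p hp
      obtain ⟨q, hq1, hq2⟩ := hensel F p (fun i => by
        change eval p (map cc (F i)) = 0
        rw [hFred, map_sub, eval_C]
        exact sub_eq_zero.2 (h1 i)) (by
        convert h2 using 3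
        ext i j
        change eval p (pderiv j (map cc (F i))) = _
        rw [hFred, map_sub, pderiv_C, sub_zero])
      exact ⟨q, fun _ => ⟨hq1, hq2⟩⟩
    · exact ⟨0, fun h => absurd h hp⟩
  choose q hq using hlift
  have hinjq : Set.InjOn (fun p : τ → K => fun i => ι (q p i)) S := by
    intro p hp p' hp' h
    funext i
    rw [← (hq p hp).2 i, ← (hq p' hp').2 i]
    have := hinj (congrFun h i)
    rw [this]
  have hder : ∀ i, pderiv i B.value = C c₁ * map ι (pderiv i Φ) := by
    intro i
    rw [hΦ, map_add, pderiv_C, zero_add, Derivation.leibniz, pderiv_C, smul_zero, add_zero,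
      pderiv_map, smul_eq_mul]
  have hb := abp_bezout B G hG (fun i => c₁ * ι (PowerSeries.C (b i)))
    (S.image fun p => fun i => ι (q p i)) (by
    intro P hP
    obtain ⟨p, hp, rfl⟩ := Finset.mem_image.1 hP
    have heval : ∀ f : MvPolynomial τ (PowerSeries K),
        eval (fun i => ι (q p i)) (map ι f) = ι (eval (q p) f) := by
      intro f
      rw [eval_map, eval₂_comp]
      rfl
    constructor
    · intro i
      rw [hder, map_mul, eval_C, heval]
      congr 2
      have := (hq p hp).1 i
      simp only [F, map_sub, eval_C] at this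
      exact sub_eq_zero.1 this
    · have h1 : (Matrix.of fun i j => eval (fun i => ι (q p i)) (pderiv j (pderiv i B.value))) =
          c₁ • ι.mapMatrix (Matrix.of fun i j => eval (q p) (pderiv j (F i))) := by
        ext i j
        simp only [Matrix.of_apply, RingHom.mapMatrix_apply, Matrix.map_apply, Matrix.smul_apply]
        rw [hder, Derivation.leibniz, pderiv_C, smul_zero, add_zero, smul_eq_mul, map_mul, eval_C,
          pderiv_map, heval, smul_eq_mul]
        simp only [F, map_sub, pderiv_C, sub_zero]
      rw [h1, Matrix.det_smul]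
      refine mul_ne_zero (pow_ne_zero _ hc₁) ?_
      rw [← RingHom.map_det, Ne, map_eq_zero_iff ι hinj]
      intro h0
      have h2 := congrArg cc h0
      rw [RingHom.map_det, map_zero] at h2
      apply (hS p hp).2
      convert h2 using 2
      ext i j
      simp only [Matrix.of_apply, RingHom.mapMatrix_apply, Matrix.map_apply]
      have h3 : ∀ f : MvPolynomial τ (PowerSeries K),
          cc (eval (q p) f) = eval p (map cc f) := by
        intro f
        rw [eval_map, ← eval₂_id, hom_eval₂]
        congr 1
        funext i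
        exact (hq p hp).2 i
      rw [h3, ← pderiv_map, hFred, map_sub, pderiv_C, sub_zero])
  rw [Finset.card_image_of_injOn hinjq] at hb
  exact hb

end Pool.Agent.H72.Bp
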