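import Pool.Agent.H72.Bp.Defs
import Pool.Agent.H10.PerSL.Subst

/-!
M4: from branching programs over `k(ε)` to branching programs over an extension `L` of `K[[t]]`,
after substituting affine forms for the variables and `t ^ e` for `ε`.
-/

set_option autoImplicit false

namespace Pool.Agent.H72.Bp

open Finset MvPolynomial
open scoped Nat
open Pool.Agent.H10.PerSL (es)
open Pool.Agent.H53.AC Pool.Agent.PerSL2

universe u v w

namespace Sub

/-- Substituting polynomials of degree at most one in a polynomial of degree at most one. -/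
theorem totalDegree_eval₂_le {R : Type u} {S : Type v} [CommRing R] [CommRing S]
    {σ τ : Type*} (ψ : R →+* S) (g : σ → MvPolynomial τ S) (hg : ∀ i, (g i).totalDegree ≤ 1)
    (P : MvPolynomial σ R) :
    (eval₂ ((C : S →+* MvPolynomial τ S).comp ψ) g P).totalDegree ≤ P.totalDegree := by
  rw [eval₂_eq]
  refine (totalDegree_finsetSum _ _).trans (Finset.sup_le fun m hm => ?_)
  refine (totalDegree_mul _ _).trans ?_
  rw [RingHom.comp_apply, totalDegree_C, zero_add]
  refine (totalDegree_finsetProd _ _).trans ?_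
  refine le_trans ?_ (le_totalDegree hm)
  rw [Finsupp.sum]
  refine Finset.sum_le_sum fun i _ => ?_
  refine (totalDegree_pow _ _).trans ?_
  calc m i * (g i).totalDegree ≤ m i * 1 := Nat.mul_le_mul_left _ (hg i)
    _ = m i := mul_one _

theorem totalDegree_map_le {R : Type u} {S : Type v} [CommRing R] [CommRing S]
    {τ : Type*} (f : R →+* S) (P : MvPolynomial τ R) :
    (map f P).totalDegree ≤ P.totalDegree := by
  rw [totalDegree, totalDegree]
  exact Finset.sup_mono (support_map_subset f P)

/-- The image of a branching program under a homomorphism. -/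
noncomputable def mapABP {K : Type u} [Field K] {L : Type v} [Field L] {σ : Type w}
    {τ : Type*} {s : ℕ} (χ : MvPolynomial σ K →+* MvPolynomial τ L)
    (hχ : ∀ P : MvPolynomial σ K, P.totalDegree ≤ 1 → (χ P).totalDegree ≤ 1) (B : ABP K σ s) :
    ABP L τ s where
  layer := B.layer
  source := B.source
  sink := B.sink
  label := fun u w => χ (B.label u w)
  layer_source := B.layer_source
  label_deg := fun u w => hχ _ (B.label_deg u w)

theorem mapABP_fwd {K : Type u} [Field K] {L : Type v} [Field L] {σ : Type w}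
    {τ : Type*} {s : ℕ} (χ : MvPolynomial σ K →+* MvPolynomial τ L)
    (hχ : ∀ P : MvPolynomial σ K, P.totalDegree ≤ 1 → (χ P).totalDegree ≤ 1) (B : ABP K σ s) :
    ∀ (i : ℕ) (w : Fin s), (mapABP χ hχ B).fwd i w = χ (B.fwd i w)
  | 0, w => by
    simp only [ABP.fwd, mapABP]
    split_ifs <;> simp
  | i + 1, w => by
    simp only [ABP.fwd, map_sum]
    refine Finset.sum_congr rfl fun u _ => ?_
    rw [mapABP_fwd χ hχ B i u]
    simp only [mapABP]
    split_ifs <;> simp

theorem mapABP_value {K : Type u} [Field K] {L : Type v} [Field L] {σ : Type w}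
    {τ : Type*} {s : ℕ} (χ : MvPolynomial σ K →+* MvPolynomial τ L)
    (hχ : ∀ P : MvPolynomial σ K, P.totalDegree ≤ 1 → (χ P).totalDegree ≤ 1) (B : ABP K σ s) :
    (mapABP χ hχ B).value = χ B.value := by
  rw [ABP.value, mapABP_fwd, ABP.value]
  rfl

end Sub

/-! ### M4 -/

theorem abp_border_subst {k : Type u} [Field k] {K : Type u} [Field K] [Algebra k K]
    {L : Type u} [Field L] [Algebra (PowerSeries K) L]
    (hinj : Function.Injective (algebraMap (PowerSeries K) L))
    {σ : Type w} {τ : Type v} {f : MvPolynomial σ k} {s : ℕ} (hf : BorderABP f s)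
    {e : ℕ} (he : 0 < e) (E : σ → MvPolynomial τ (PowerSeries K))
    (hE : ∀ i, (E i).totalDegree ≤ 1) :
    ∃ (B : ABP L τ s) (G : MvPolynomial τ (PowerSeries K)),
      B.value = map (algebraMap (PowerSeries K) L)
        (eval₂ ((C : PowerSeries K →+* _).comp
          ((PowerSeries.C (R := K)).comp (algebraMap k K))) E f +
          C (PowerSeries.X ^ e) * G) := by
  classical
  obtain ⟨F, hF, B, hB⟩ := hf
  obtain ⟨ψ, hψ⟩ := Pool.Agent.H10.PerSL.exists_psi (k := k) hinj he
  choose b hb using fun m => hψ _ _ (hF m)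
  let ι := algebraMap (PowerSeries K) L
  let χ : MvPolynomial σ (RatFunc k) →+* MvPolynomial τ L :=
    eval₂Hom ((C : L →+* MvPolynomial τ L).comp ψ) (fun i => map ι (E i))
  have hχ : ∀ P : MvPolynomial σ (RatFunc k), P.totalDegree ≤ 1 → (χ P).totalDegree ≤ 1 := by
    intro P hP
    refine le_trans ?_ hP
    exact Sub.totalDegree_eval₂_le ψ _
      (fun i => (Sub.totalDegree_map_le ι (E i)).trans (hE i)) P
  let t := F.support ∪ f.support
  let mon : (σ →₀ ℕ) → MvPolynomial τ (PowerSeries K) := fun m => ∏ i ∈ m.support, E i ^ m i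
  refine ⟨Sub.mapABP χ hχ B, ∑ m ∈ t, C (b m) * mon m, ?_⟩
  rw [Sub.mapABP_value, hB]
  have h1 : χ F = ∑ m ∈ t, C (ψ (coeff m F)) * map ι (mon m) := by
    simp only [χ, coe_eval₂Hom]
    rw [eval₂_eq]
    refine (Finset.sum_subset (s₂ := t) (Finset.subset_union_left) ?_).trans ?_
    · intro m _ hm
      rw [MvPolynomial.notMem_support_iff.1 hm]
      simp
    · refine Finset.sum_congr rfl fun m _ => ?_
      simp only [mon, map_prod, map_pow, RingHom.comp_apply]
  have h2 : eval₂ ((C : PowerSeries K →+* _).comp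
          ((PowerSeries.C (R := K)).comp (algebraMap k K))) E f =
      ∑ m ∈ t, C (PowerSeries.C (algebraMap k K (coeff m f))) * mon m := by
    rw [eval₂_eq]
    refine (Finset.sum_subset (s₂ := t) (Finset.subset_union_right) ?_).trans ?_
    · intro m _ hm
      rw [MvPolynomial.notMem_support_iff.1 hm]
      simp
    · refine Finset.sum_congr rfl fun m _ => ?_
      simp only [mon, RingHom.comp_apply]
  rw [h2, h1, map_add, map_mul, map_sum, map_sum, Finset.mul_sum, ← Finset.sum_add_distrib]
  refine Finset.sum_congr rfl fun m _ => ?_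
  rw [hb m]
  simp only [map_mul, map_C, map_add, ι]
  ring

end Pool.Agent.H72.Bp
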