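import Pool.Agent.PerSL2.Final
import Pool.Agent.H72.Bp.Deg
import Pool.Agent.H72.Bp.Sub
import Pool.Agent.H72.Bp.Gad
import Pool.Agent.H72.Bp.Cri
import Pool.Agent.H72.Bp.Asy

/-!
Assembly: the border branching program size of the permanent.
-/

set_option autoImplicit false

namespace Pool.Agent.H72.Bp

open Finset MvPolynomial
open scoped Nat
open Pool.Agent.H10.PerSL (es perPoly perPoly_eval₂)
open Pool.Agent.H53.AC Pool.Agent.PerSL2

universe u

theorem Entry.deg {V : Type} {K : Type u} [Field K] {p : MvPolynomial V (PowerSeries K)}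
    (hp : Entry p) : p.totalDegree ≤ 1 := by
  rcases hp with ⟨s, rfl⟩ | ⟨s, v, rfl⟩
  · simp
  · refine (totalDegree_mul _ _).trans ?_
    rw [totalDegree_C, totalDegree_X]

theorem core {n r h d G : ℕ} (hr : 0 < r) (hh : 0 < h) (hd : 0 < d) (hG : 0 < G)
    (hrd : h ^ r = 2 * d)
    (hn : (2 * h) ^ r + r * ((2 * h) ^ r + 2 * (h * (2 * h) ^ r)) + (2 * h) ^ r + (d + 1) ≤ n)
    (k : Type u) [Field k] [CharZero k] (s : ℕ) (hs : BorderABP (perPoly n k) s) :
    ∃ cnt : ℕ, (2 * d)! ≤ cnt * 2 ^ d ∧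
      cnt ^ (2 * d) ≤ (G + 1) ^ ((2 * d) * (2 * d) + 2 * (s / G)) := by
  have : CharZero (AlgebraicClosure k) := charZero_of_injective_algebraMap
    (algebraMap k (AlgebraicClosure k)).injective
  have hprim : ∀ N : ℕ, 0 < N → ∃ ζ : AlgebraicClosure k, IsPrimitiveRoot ζ N := by
    intro N hN
    have : NeZero N := ⟨hN.ne'⟩
    exact HasEnoughRootsOfUnity.exists_primitiveRoot _ _
  have hpos : 0 < (2 * h) ^ r := by positivity
  have hkm : d + 1 < (2 * h) ^ r := by
    rw [mul_pow, hrd]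
    have : 2 ≤ 2 ^ r := by
      calc 2 = 2 ^ 1 := (pow_one 2).symm
        _ ≤ 2 ^ r := Nat.pow_le_pow_right (by norm_num) hr
    nlinarith
  obtain ⟨ω, hω⟩ := hprim d hd
  obtain ⟨ζ, hζ⟩ := hprim ((2 * h) ^ r) hpos
  obtain ⟨Row, Col, i1, i2, i3, i4, A, c₁, L, Z, hRow, hCol, hEntry, hc1, hA⟩ :=
    abp_gadget (K := AlgebraicClosure k) (r := r) (h := h) (k := d + 1) (by omega) hkm hζ
  have hcI : Fintype.card (Fin r → Fin h) = 2 * d := by
    rw [Fintype.card_fun, Fintype.card_fin, Fintype.card_fin, hrd]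
  obtain ⟨b, cnt, S, hcnt, hS, hcrit⟩ := crit3 hd hω (Fin r → Fin h) (Fin r → Fin h) hcI
  refine ⟨cnt, hcnt, ?_⟩
  rw [hcI] at hS
  rw [← hS]
  obtain ⟨e, he⟩ := Nat.exists_eq_add_of_le hn
  have hcR : Fintype.card (Row ⊕ Fin e) = n := by
    rw [Fintype.card_sum, hRow, Fintype.card_fin, he]
  have hcC : Fintype.card (Col ⊕ Fin e) = n := by
    rw [Fintype.card_sum, hCol, Fintype.card_fin, he]
  let eR : Fin n ≃ Row ⊕ Fin e := (Fintype.equivFinOfCardEq hcR).symm
  let eC : Fin n ≃ Col ⊕ Fin e := (Fintype.equivFinOfCardEq hcC).symm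
  let E : Fin n × Fin n → MvPolynomial ((Fin r → Fin h) × (Fin r → Fin h))
      (PowerSeries (AlgebraicClosure k)) := fun q => pad e A (eR q.1) (eC q.2)
  let ι := algebraMap (PowerSeries (AlgebraicClosure k))
    (FractionRing (PowerSeries (AlgebraicClosure k)))
  have hinj : Function.Injective ι := IsFractionRing.injective _ _
  have hpe : ∀ i j, Entry (pad e A i j) := by
    intro i j
    rcases i with i | i <;> rcases j with j | j
    · exact hEntry i j
    · exact Entry_zero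
    · exact Entry_zero
    · change Entry (if i = j then 1 else 0)
      split_ifs
      · exact Entry_one
      · exact Entry_zero
  have hE : ∀ q, (E q).totalDegree ≤ 1 := fun q => Entry.deg (hpe _ _)
  obtain ⟨B, G', hB⟩ := abp_border_subst hinj hs (e := L + 1) (by omega) E hE
  rw [perPoly_eval₂] at hB
  have hpm : (∑ σ : (Col ⊕ Fin e) ≃ (Row ⊕ Fin e), ∏ c, pad e A (σ c) c) = pm A :=
    pm_pad e A (hRow.trans hCol.symm)
  rw [hpm, hA] at hB
  -- the polynomial `Φ`
  let Φ : MvPolynomial ((Fin r → Fin h) × (Fin r → Fin h))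
      (PowerSeries (AlgebraicClosure k)) :=
    C (PowerSeries.C c₁) * dsum (Fin r → Fin h) (Fin r → Fin h)
      (PowerSeries (AlgebraicClosure k)) (d + 1) + C PowerSeries.X * (Z + G')
  have hΦ : B.value = C 0 + C (ι (PowerSeries.X ^ L)) * map ι Φ := by
    have h1 : (C (PowerSeries.X ^ L) *
        (C (PowerSeries.C c₁) * dsum (Fin r → Fin h) (Fin r → Fin h)
          (PowerSeries (AlgebraicClosure k)) (d + 1)) +
        C (PowerSeries.X ^ (L + 1)) * Z + C (PowerSeries.X ^ (L + 1)) * G') =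
        C (PowerSeries.X ^ L) * Φ := by
      simp only [Φ, map_pow]
      ring
    rw [h1, map_mul, map_C] at hB
    rw [hB, C_0, zero_add]
  have h3 : ι (PowerSeries.X ^ L) ≠ 0 := by
    rw [Ne, map_eq_zero_iff ι hinj]
    exact pow_ne_zero _ PowerSeries.X_ne_zero
  have hred : map (PowerSeries.constantCoeff (R := AlgebraicClosure k)) Φ =
      c₁ • dsum (Fin r → Fin h) (Fin r → Fin h) (AlgebraicClosure k) (d + 1) := by
    simp only [Φ, map_add, map_mul, map_C, PowerSeries.constantCoeff_C,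
      PowerSeries.constantCoeff_X, C_0, zero_mul, add_zero]
    rw [map_dsum, MvPolynomial.smul_eq_C_mul]
  have hb := abp_degree_bound hinj B G hG Φ 0 _ h3 hΦ (fun _ => c₁ * b) S (by
    intro p hp
    obtain ⟨hp1, hp2⟩ := hcrit p hp
    rw [hred]
    constructor
    · intro i
      rw [Derivation.map_smul, smul_eval, hp1 i]
    · have : (Matrix.of fun i j => eval p (pderiv j (pderiv i (c₁ •
          dsum (Fin r → Fin h) (Fin r → Fin h) (AlgebraicClosure k) (d + 1))))) =
          c₁ • (Matrix.of fun x x' => eval p (pderiv x' (pderiv x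
            (dsum (Fin r → Fin h) (Fin r → Fin h) (AlgebraicClosure k) (d + 1))))) := by
        ext i j
        simp only [Matrix.of_apply, Matrix.smul_apply]
        rw [Derivation.map_smul, Derivation.map_smul, smul_eval, smul_eq_mul]
      rw [this, Matrix.det_smul]
      exact mul_ne_zero (pow_ne_zero _ hc1) hp2)
  have hcV : Fintype.card ((Fin r → Fin h) × (Fin r → Fin h)) = (2 * d) * (2 * d) := by
    rw [Fintype.card_prod, hcI]
  rw [hcV] at hb
  exact hb

theorem final (ε : ℝ) (hε : 0 < ε) : ∃ n₀ : ℕ, ∀ n ≥ n₀, ∀ (k : Type u) [Field k] [CharZero k]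
    (s : ℕ), BorderABP (perPoly n k) s → (n : ℝ) ^ (3 - ε) ≤ s := by
  obtain ⟨n₀, h⟩ := asy ε hε
  refine ⟨n₀, fun n hn k _ _ s hs => ?_⟩
  obtain ⟨r, h', d, G, h1, h2, h3, h4, h5, h6, h7⟩ := h n hn
  obtain ⟨cnt, g1, g2⟩ := core h1 h2 h3 h4 h5 h6 k s hs
  exact h7 s cnt g1 g2

end Pool.Agent.H72.Bp
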