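import Pool.Agent.H72.Bp.Defs

/-!
Module `Mer`: merging two columns.
-/

set_option autoImplicit false

namespace Pool.Agent.H72.Bp

open Finset
open Pool.Agent.PerSL2

universe u

/-- Exchange the two copies of `P` outside `U`. -/
def mgSw {P : Type} [DecidableEq P] (U : Finset P) : P ⊕ P ≃ P ⊕ P where
  toFun := Sum.elim (fun p => if p ∈ U then Sum.inl p else Sum.inr p)
    (fun p => if p ∈ U then Sum.inr p else Sum.inl p)
  invFun := Sum.elim (fun p => if p ∈ U then Sum.inl p else Sum.inr p)
    (fun p => if p ∈ U then Sum.inr p else Sum.inl p)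
  left_inv := by
    rintro (p | p) <;> by_cases h : p ∈ U <;> simp [h]
  right_inv := by
    rintro (p | p) <;> by_cases h : p ∈ U <;> simp [h]

/-- The columns are distributed. -/
def mgPre (κ : Type) {P : Type} [DecidableEq P] (U : Finset P) : κ ⊕ (P ⊕ P) ≃ (κ ⊕ P) ⊕ P :=
  (Equiv.sumCongr (Equiv.refl κ) (mgSw U)).trans (Equiv.sumAssoc κ P P).symm

theorem mgPre_inl {κ P : Type} [DecidableEq P] (U : Finset P) (c : κ) :
    mgPre κ U (Sum.inl c) = Sum.inl (Sum.inl c) := rfl

theorem mgPre_inr_inl {κ P : Type} [DecidableEq P] (U : Finset P) (p : P) :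
    mgPre κ U (Sum.inr (Sum.inl p)) = if p ∈ U then Sum.inl (Sum.inr p) else Sum.inr p := by
  by_cases h : p ∈ U <;> simp [mgPre, mgSw, h]

theorem mgPre_inr_inr {κ P : Type} [DecidableEq P] (U : Finset P) (p : P) :
    mgPre κ U (Sum.inr (Sum.inr p)) = if p ∈ U then Sum.inr p else Sum.inl (Sum.inr p) := by
  by_cases h : p ∈ U <;> simp [mgPre, mgSw, h]

/-- The bijection belonging to a pair. -/
def mgE {ρ κ P : Type} [DecidableEq P] (x : (κ ⊕ P ≃ ρ) × Finset P) : κ ⊕ (P ⊕ P) ≃ ρ ⊕ P :=
  (mgPre κ x.2).trans (Equiv.sumCongr x.1 (Equiv.refl P))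

theorem mgE_inl {ρ κ P : Type} [DecidableEq P] (x : (κ ⊕ P ≃ ρ) × Finset P) (c : κ) :
    mgE x (Sum.inl c) = Sum.inl (x.1 (Sum.inl c)) := by
  simp [mgE, mgPre_inl]

theorem mgE_inr_inl {ρ κ P : Type} [DecidableEq P] (x : (κ ⊕ P ≃ ρ) × Finset P) (p : P) :
    mgE x (Sum.inr (Sum.inl p)) = if p ∈ x.2 then Sum.inl (x.1 (Sum.inr p)) else Sum.inr p := by
  by_cases h : p ∈ x.2 <;> simp [mgE, mgPre_inr_inl, h]

theorem mgE_inr_inr {ρ κ P : Type} [DecidableEq P] (x : (κ ⊕ P ≃ ρ) × Finset P) (p : P) :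
    mgE x (Sum.inr (Sum.inr p)) = if p ∈ x.2 then Sum.inr p else Sum.inl (x.1 (Sum.inr p)) := by
  by_cases h : p ∈ x.2 <;> simp [mgE, mgPre_inr_inr, h]

theorem merge {R : Type u} [CommRing R] {ρ κ P : Type} [Fintype ρ] [DecidableEq ρ] [Fintype κ]
    [DecidableEq κ] [Fintype P] [DecidableEq P] (A : ρ → κ → R) (M N : ρ → P → R) (α : P → R) :
    pm (mgM A M N α) = pm (mgR A M N α) := by
  unfold pm
  have h1 : ∀ τ : κ ⊕ P ≃ ρ, ∏ c, mgR A M N α (τ c) c =
      ∑ U : Finset P, (∏ c, A (τ (Sum.inl c)) c) *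
        ∏ p, (if p ∈ U then α p * M (τ (Sum.inr p)) p else N (τ (Sum.inr p)) p) := by
    intro τ
    rw [Fintype.prod_sum_type, ← Finset.mul_sum]
    congr 1
    have h2 : ∀ p, mgR A M N α (τ (Sum.inr p)) (Sum.inr p) =
        α p * M (τ (Sum.inr p)) p + N (τ (Sum.inr p)) p := fun p => by
      simp only [mgR]; ring
    rw [Finset.prod_congr rfl fun p _ => h2 p, Finset.prod_add, Finset.powerset_univ]
    refine Finset.sum_congr rfl fun U _ => ?_
    rw [Finset.prod_ite]
    congr 1
    · refine Finset.prod_congr ?_ fun _ _ => rfl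
      ext p; simp
    · refine Finset.prod_congr ?_ fun _ _ => rfl
      ext p; simp
  rw [Finset.sum_congr rfl fun τ _ => h1 τ, ← Finset.sum_product']
  symm
  refine Finset.sum_of_injOn (fun x : (κ ⊕ P ≃ ρ) × Finset P => mgE x) ?_ ?_ ?_ ?_
  · rintro ⟨τ, U⟩ _ ⟨τ', U'⟩ _ h
    have h2 : ∀ c, mgE (τ, U) c = mgE (τ', U') c := fun c => by
      have := congrArg (fun e : κ ⊕ (P ⊕ P) ≃ ρ ⊕ P => e c) h
      exact this
    have hU : U = U' := by
      ext p
      have := h2 (Sum.inr (Sum.inr p))
      rw [mgE_inr_inr, mgE_inr_inr] at this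
      by_cases a : p ∈ U <;> by_cases b : p ∈ U' <;> simp [a, b] at this ⊢
    subst hU
    refine Prod.ext ?_ rfl
    refine Equiv.ext ?_
    rintro (c | p)
    · have := h2 (Sum.inl c)
      rw [mgE_inl, mgE_inl] at this
      exact Sum.inl_injective this
    · by_cases a : p ∈ U
      · have := h2 (Sum.inr (Sum.inl p))
        rw [mgE_inr_inl, mgE_inr_inl, if_pos a, if_pos a] at this
        exact Sum.inl_injective this
      · have := h2 (Sum.inr (Sum.inr p))
        rw [mgE_inr_inr, mgE_inr_inr, if_neg a, if_neg a] at this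
        exact Sum.inl_injective this
  · intro x _
    exact Finset.mem_coe.2 (Finset.mem_univ _)
  · intro σ _ hσ
    by_contra hne
    have hne' : ∀ c, mgM A M N α (σ c) c ≠ 0 := fun c hc =>
      hne (Finset.prod_eq_zero (Finset.mem_univ c) hc)
    have k1 : ∀ c : κ, ∃ r, σ (Sum.inl c) = Sum.inl r := by
      intro c
      rcases hr : σ (Sum.inl c) with r | p
      · exact ⟨r, rfl⟩
      · exact absurd (by rw [hr]; rfl) (hne' (Sum.inl c))
    have k2 : ∀ p q : P, σ (Sum.inr (Sum.inl p)) = Sum.inr q → q = p := by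
      intro p q h
      by_contra hpq
      refine hne' (Sum.inr (Sum.inl p)) ?_
      rw [h]
      exact if_neg hpq
    have k3 : ∀ p q : P, σ (Sum.inr (Sum.inr p)) = Sum.inr q → q = p := by
      intro p q h
      by_contra hpq
      refine hne' (Sum.inr (Sum.inr p)) ?_
      rw [h]
      exact if_neg hpq
    set U : Finset P := univ.filter fun p => σ (Sum.inr (Sum.inr p)) = Sum.inr p with hUdef
    have hU : ∀ p, p ∈ U ↔ σ (Sum.inr (Sum.inr p)) = Sum.inr p := fun p => by simp [hUdef]
    have k4 : ∀ p, p ∈ U → ∃ r, σ (Sum.inr (Sum.inl p)) = Sum.inl r := by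
      intro p hp
      rcases hr : σ (Sum.inr (Sum.inl p)) with r | q
      · exact ⟨r, rfl⟩
      · have h3 := k2 p q hr
        subst h3
        rw [hU] at hp
        have := σ.injective (hr.trans hp.symm)
        simp at this
    have k5 : ∀ p, p ∉ U → ∃ r, σ (Sum.inr (Sum.inr p)) = Sum.inl r := by
      intro p hp
      rcases hr : σ (Sum.inr (Sum.inr p)) with r | q
      · exact ⟨r, rfl⟩
      · have h3 := k3 p q hr
        subst h3
        exact absurd ((hU q).2 hr) hp
    have k6 : ∀ p, p ∉ U → σ (Sum.inr (Sum.inl p)) = Sum.inr p := by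
      intro p hp
      obtain ⟨x, hx⟩ := σ.surjective (Sum.inr p)
      rcases x with c | q | q
      · obtain ⟨r, hr⟩ := k1 c
        rw [hr] at hx
        cases hx
      · have h3 := k2 q p hx
        subst h3
        exact hx
      · have h3 := k3 q p hx
        subst h3
        exact absurd ((hU p).2 hx) hp
    have k7 : ∀ x : κ ⊕ P, ∃ r, σ ((mgPre κ U).symm (Sum.inl x)) = Sum.inl r := by
      rintro (c | p)
      · have : (mgPre κ U).symm (Sum.inl (Sum.inl c)) = Sum.inl c := by
          rw [Equiv.symm_apply_eq, mgPre_inl]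
        rw [this]
        exact k1 c
      · by_cases hp : p ∈ U
        · have : (mgPre κ U).symm (Sum.inl (Sum.inr p)) = Sum.inr (Sum.inl p) := by
            rw [Equiv.symm_apply_eq, mgPre_inr_inl, if_pos hp]
          rw [this]
          exact k4 p hp
        · have : (mgPre κ U).symm (Sum.inl (Sum.inr p)) = Sum.inr (Sum.inr p) := by
            rw [Equiv.symm_apply_eq, mgPre_inr_inr, if_neg hp]
          rw [this]
          exact k5 p hp
    have k8 : ∀ p : P, σ ((mgPre κ U).symm (Sum.inr p)) = Sum.inr p := by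
      intro p
      by_cases hp : p ∈ U
      · have : (mgPre κ U).symm (Sum.inr p) = Sum.inr (Sum.inr p) := by
          rw [Equiv.symm_apply_eq, mgPre_inr_inr, if_pos hp]
        rw [this]
        exact (hU p).1 hp
      · have : (mgPre κ U).symm (Sum.inr p) = Sum.inr (Sum.inl p) := by
          rw [Equiv.symm_apply_eq, mgPre_inr_inl, if_neg hp]
        rw [this]
        exact k6 p hp
    choose f hf using k7
    have hfi : Function.Injective f := fun x y hxy => by
      have h3 := (hf x).trans ((congrArg Sum.inl hxy).trans (hf y).symm)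
      have h4 := (mgPre κ U).symm.injective (σ.injective h3)
      exact Sum.inl_injective h4
    have hfs : Function.Surjective f := fun r => by
      obtain ⟨x, hx⟩ := σ.surjective (Sum.inl r)
      obtain ⟨y, hy⟩ := (mgPre κ U).symm.surjective x
      rcases y with y | p
      · refine ⟨y, ?_⟩
        have h3 := hf y
        rw [hy, hx] at h3
        exact (Sum.inl_injective h3).symm
      · have h3 := k8 p
        rw [hy, hx] at h3
        cases h3
    apply hσ
    refine ⟨(Equiv.ofBijective f ⟨hfi, hfs⟩, U), Finset.mem_coe.2 (Finset.mem_univ _), ?_⟩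
    refine Equiv.ext fun c => ?_
    obtain ⟨y, hy⟩ := (mgPre κ U).symm.surjective c
    subst hy
    change Equiv.sumCongr (Equiv.ofBijective f ⟨hfi, hfs⟩) (Equiv.refl P)
      (mgPre κ U ((mgPre κ U).symm y)) = _
    rw [Equiv.apply_symm_apply]
    rcases y with y | p
    · rw [hf y]; rfl
    · rw [k8 p]; rfl
  · rintro ⟨τ, U⟩ _
    rw [Fintype.prod_sum_type, Fintype.prod_sum_type, ← Finset.prod_mul_distrib]
    congr 1
    refine Finset.prod_congr rfl fun p _ => ?_
    rw [mgE_inr_inl, mgE_inr_inr]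
    by_cases hp : p ∈ U
    · simp only [hp, if_true]
      simp only [mgM, if_true]
      ring
    · simp only [hp, if_false]
      simp only [mgM, if_true, one_mul]

end Pool.Agent.H72.Bp
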