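import Pool.Agent.H72.Bp.Stg

/-!
# Squad ABP, module Mul: induction on the stages
-/

set_option autoImplicit false

namespace Pool.Agent.H72.Bp

open Finset MvPolynomial
open scoped Nat
open Pool.Agent.H53.AC Pool.Agent.PerSL2

universe u v w

theorem stg_entry {K R : Type u} [Field K] [CommRing R] [Algebra K R] {Q P ρ κ : Type}
    [DecidableEq Q] [DecidableEq P] {m : ℕ} {ζ : K} (E : R → Prop) (E0 : E 0) (E1 : E 1)
    (Ez : ∀ x : K, E (-algebraMap K R x)) {A : ρ ⊕ P → κ ⊕ P → R} (hA : ∀ i j, E (A i j))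
    {α β : Q → P → R} (hα : ∀ q p, E (α q p)) (hβ : ∀ q p, E (β q p)) (i j) :
    E (stg (m := m) ζ A α β i j) := by
  rcases i with ((r | ((⟨q, i⟩) | ⟨q, v⟩)) | p)
  · rcases j with ((c | ((⟨q', j⟩) | ⟨q', v'⟩)) | p')
    · exact hA r c
    · show E (Sum.elim (fun _ => 0) (fun p => if j = p then β q' j else 0) r)
      rcases r with r | p
      · exact E0
      · show E (if j = p then β q' j else 0)
        split_ifs
        · exact hβ _ _
        · exact E0
    · exact E0
    · exact E0
  · rcases j with ((c | ((⟨q', j⟩) | ⟨q', v'⟩)) | p')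
    · show E (Sum.elim (fun _ => 0) (fun p => if i = p then α q i else 0) c)
      rcases c with c | p
      · exact E0
      · show E (if i = p then α q i else 0)
        split_ifs
        · exact hα _ _
        · exact E0
    · exact E0
    · show E (if q = q' then -(algebraMap K R (ζ ^ (v' : ℕ))) else 0)
      split_ifs
      · exact Ez _
      · exact E0
    · show E (if i = p' then 1 else 0)
      split_ifs
      · exact E1
      · exact E0
  · rcases j with ((c | ((⟨q', j⟩) | ⟨q', v'⟩)) | p')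
    · exact E0
    · show E (if q = q' then -(algebraMap K R (ζ ^ (v : ℕ))) else 0)
      split_ifs
      · exact Ez _
      · exact E0
    · show E (if q = q' then 1 else 0)
      split_ifs
      · exact E1
      · exact E0
    · exact E0
  · rcases j with ((c | ((⟨q', j⟩) | ⟨q', v'⟩)) | p')
    · exact E0
    · show E (if p = j then 1 else 0)
      split_ifs
      · exact E1
      · exact E0
    · exact E0
    · exact E0

theorem multi {K R : Type u} [Field K] [CharZero K] [CommRing R] [Algebra K R] {P ρ₀ κ₀ : Type}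
    [Fintype P] [DecidableEq P] [Fintype ρ₀] [DecidableEq ρ₀] [Fintype κ₀] [DecidableEq κ₀]
    {k m h r : ℕ} (hk : 0 < k) (hm : Fintype.card P = m) (hkm : k < m) {ζ : K}
    (hζ : IsPrimitiveRoot ζ m) (E : R → Prop) (E0 : E 0) (E1 : E 1)
    (Ez : ∀ x : K, E (-algebraMap K R x)) (A₀ : ρ₀ ⊕ P → κ₀ ⊕ P → R) (hA₀ : ∀ i j, E (A₀ i j))
    (α β : Fin r → Fin h → P → R) (hα : ∀ l q p, E (α l q p)) (hβ : ∀ l q p, E (β l q p)) :
    ∃ (ρ κ : Type) (_ : Fintype ρ) (_ : DecidableEq ρ) (_ : Fintype κ) (_ : DecidableEq κ)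
      (A : ρ ⊕ P → κ ⊕ P → R) (c : K), c ≠ 0 ∧
      Fintype.card ρ = Fintype.card ρ₀ + r * (m + 2 * (h * m)) ∧
      Fintype.card κ = Fintype.card κ₀ + r * (m + 2 * (h * m)) ∧
      (∀ i j, E (A i j)) ∧
      ∀ a b : P → R, pm (fr k A a b) = algebraMap K R c * ∑ q : Fin r → Fin h,
        pm (fr k A₀ (fun p => a p * ∏ l, α l (q l) p) (fun p => b p * ∏ l, β l (q l) p)) := by
  induction r with
  | zero =>
    refine ⟨ρ₀, κ₀, inferInstance, inferInstance, inferInstance, inferInstance, A₀, 1,
      one_ne_zero, by simp, by simp, hA₀, fun a b => ?_⟩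
    rw [map_one, one_mul, Fintype.sum_unique]
    simp only [Finset.univ_eq_empty, Finset.prod_empty, mul_one]
  | succ r ih =>
    obtain ⟨ρ, κ, i1, i2, i3, i4, A, c, hc, hρ, hκ, hE, hpm⟩ :=
      ih (fun l => α (Fin.castSucc l)) (fun l => β (Fin.castSucc l))
        (fun l => hα (Fin.castSucc l)) (fun l => hβ (Fin.castSucc l))
    refine ⟨(ρ ⊕ P) ⊕ ((Fin h × P) ⊕ (Fin h × Fin m)), (κ ⊕ P) ⊕ ((Fin h × P) ⊕ (Fin h × Fin m)),
      inferInstance, inferInstance, inferInstance, inferInstance,
      stg (m := m) ζ A (α (Fin.last r)) (β (Fin.last r)),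
      ((m ! : K) ^ 2) ^ (Fintype.card (Fin h) - 1) * (m ! : K) * c, ?_, ?_, ?_, ?_, ?_⟩
    · have h1 : (m ! : K) ≠ 0 := by exact_mod_cast Nat.factorial_ne_zero m
      exact mul_ne_zero (mul_ne_zero (pow_ne_zero _ (pow_ne_zero _ h1)) h1) hc
    · simp only [Fintype.card_sum, Fintype.card_prod, Fintype.card_fin, hm]
      rw [hρ]
      ring
    · simp only [Fintype.card_sum, Fintype.card_prod, Fintype.card_fin, hm]
      rw [hκ]
      ring
    · exact stg_entry E E0 E1 Ez hE (hα _) (hβ _)
    · intro a b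
      rw [stage hk hm hkm hζ A (α (Fin.last r)) (β (Fin.last r)) a b, map_mul _ _ c, mul_assoc]
      congr 1
      rw [Finset.mul_sum]
      have h2 : ∀ q : Fin h, pm (fr k A (fun p => a p * α (Fin.last r) q p)
          (fun p => b p * β (Fin.last r) q p)) = algebraMap K R c * ∑ q' : Fin r → Fin h,
          pm (fr k A₀ (fun p => a p * α (Fin.last r) q p * ∏ l, α (Fin.castSucc l) (q' l) p)
            (fun p => b p * β (Fin.last r) q p * ∏ l, β (Fin.castSucc l) (q' l) p)) :=
        fun q => hpm _ _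
      simp only [h2]
      rw [← Finset.mul_sum, ← Finset.mul_sum]
      congr 1
      rw [← Fintype.sum_prod_type', ← Equiv.sum_comp (Fin.snocEquiv fun _ : Fin (r + 1) => Fin h)]
      refine Finset.sum_congr rfl fun x _ => ?_
      obtain ⟨q, q'⟩ := x
      have h3 : ∀ (γ : Fin (r + 1) → Fin h → P → R) (p : P),
          ∏ l, γ l ((Fin.snocEquiv (fun _ : Fin (r + 1) => Fin h)) (q, q') l) p =
          γ (Fin.last r) q p * ∏ l, γ (Fin.castSucc l) (q' l) p := by
        intro γ p
        rw [Fin.prod_univ_castSucc, mul_comm]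
        congr 1
        · simp [Fin.snocEquiv]
        · refine Finset.prod_congr rfl fun l _ => ?_
          simp [Fin.snocEquiv]
      simp only [h3, mul_assoc]

end Pool.Agent.H72.Bp
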