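import Pool.Agent.H72.Bp.Defs
import Pool.Agent.H10.PerSL.Degree

/-! A Bezout type bound for systems with sequentially defined auxiliary variables. -/

set_option autoImplicit false

namespace Pool.Agent.H72.Bp

open Finset MvPolynomial
open Pool.Agent.H10.PerSL (aeval_eq_eval' bezout aeval_dual)

universe u v

theorem seq_bezout {K : Type u} {τ : Type v} [Field K] [Fintype τ] [DecidableEq τ]
    {ι : Type} [Fintype ι] [DecidableEq ι]
    (Q : ι → MvPolynomial (τ ⊕ ι) K) (G : ι → MvPolynomial τ K) (H : τ → MvPolynomial (τ ⊕ ι) K)
    (δ : ℕ) (hδ : 1 ≤ δ) (hQ : ∀ j, (Q j).totalDegree ≤ δ) (hH : ∀ i, (H i).totalDegree ≤ δ)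
    (hP : ∀ (R : Type u) [CommRing R] [Algebra K R] (x : τ → R) (y : ι → R),
        (∀ j, y j = aeval (Sum.elim x y) (Q j)) → ∀ j, y j = aeval x (G j))
    (hG : ∀ j, aeval (Sum.elim X G) (Q j) = G j)
    (h : τ → MvPolynomial τ K) (hh : ∀ i, aeval (Sum.elim X G) (H i) = h i)
    (S : Finset (τ → K)) (hS : ∀ p ∈ S, (∀ i, eval p (h i) = 0) ∧
      (Matrix.of fun i j => eval p (pderiv j (h i))).det ≠ 0) :
    S.card ≤ δ ^ (Fintype.card τ + Fintype.card ι) := by
  classical
  let f : τ ⊕ ι → MvPolynomial (τ ⊕ ι) K :=
    Sum.elim H (fun j => X (Sum.inr j) - Q j)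
  let dd : τ ⊕ ι → ℕ := fun _ => δ
  let emb : (τ → K) → (τ ⊕ ι → K) := fun p => Sum.elim p (fun j => eval p (G j))
  have hemb : Function.Injective emb := by
    intro p q hpq
    funext i
    exact congrFun hpq (Sum.inl i)
  have hb := bezout f dd (fun _ => hδ) (by
    rintro (i | i)
    · exact hH i
    · refine (totalDegree_sub _ _).trans (max_le ?_ (hQ i))
      simp only [totalDegree_X]
      exact hδ) (S.map ⟨emb, hemb⟩) (by
    intro P hPmem
    obtain ⟨p, hp, rfl⟩ := Finset.mem_map.1 hPmem
    obtain ⟨hp0, hpdet⟩ := hS p hp
    simp only [Function.Embedding.coeFn_mk]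
    have hcomp : ∀ q : MvPolynomial (τ ⊕ ι) K, eval (emb p) q =
        eval p (aeval (Sum.elim X G) q) := by
      intro q
      have : aeval p (aeval (Sum.elim X G) q) = aeval (emb p) q := by
        change ((aeval p).comp (aeval (Sum.elim X G))) q = _
        rw [comp_aeval]
        congr 2
        funext i
        rcases i with i | i
        · simp [emb]
        · simp [emb]
      rw [← aeval_eq_eval', ← aeval_eq_eval', this]
    constructor
    · rintro (i | j)
      · change eval (emb p) (H i) = 0
        rw [hcomp, hh, hp0]
      · change eval (emb p) (X (Sum.inr j) - Q j) = 0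
        rw [map_sub, eval_X, hcomp, hG, sub_eq_zero]
        rfl
    · intro hdet
      obtain ⟨V', hV'0, hV'⟩ := Matrix.exists_mulVec_eq_zero_iff.2 hdet
      have hJ : ∀ i, ∑ j, V' j * aeval (emb p) (pderiv j (f i)) = 0 := by
        intro i
        have := congrFun hV' i
        simp only [Matrix.mulVec, dotProduct, Matrix.of_apply, Pi.zero_apply] at this
        rw [← this]
        refine Finset.sum_congr rfl fun j _ => ?_
        rw [mul_comm, aeval_eq_eval']
      -- the point over the dual numbers
      let x : τ → DualNumber K := fun i =>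
        TrivSqZeroExt.inl (p i) + TrivSqZeroExt.inr (V' (Sum.inl i))
      let y : ι → DualNumber K := fun j =>
        TrivSqZeroExt.inl (eval p (G j)) + TrivSqZeroExt.inr (V' (Sum.inr j))
      have hxy : (Sum.elim x y : τ ⊕ ι → DualNumber K) = fun i =>
          TrivSqZeroExt.inl (emb p i) + TrivSqZeroExt.inr (V' i) := by
        funext i
        rcases i with i | i <;> rfl
      have hzero : ∀ i, aeval (emb p) (f i) = 0 := by
        rintro (i | j)
        · change aeval (emb p) (H i) = 0
          rw [aeval_eq_eval', hcomp, hh, hp0]
        · change aeval (emb p) (X (Sum.inr j) - Q j) = 0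
          rw [aeval_eq_eval', map_sub, eval_X, hcomp, hG, sub_eq_zero]
          rfl
      have hf : ∀ i, aeval (Sum.elim x y : τ ⊕ ι → DualNumber K) (f i) = 0 := by
        intro i
        rw [hxy, aeval_dual, hJ i, hzero i]
        simp
      have hy : ∀ j, y j = aeval x (G j) := by
        refine hP (DualNumber K) x y fun j => ?_
        have := hf (Sum.inr j)
        change aeval (Sum.elim x y) (X (Sum.inr j) - Q j) = 0 at this
        rw [map_sub, aeval_X, sub_eq_zero] at this
        exact this
      have hx : ∀ i, aeval x (h i) = 0 := by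
        intro i
        rw [← hh i]
        change ((aeval x).comp (aeval (Sum.elim X G))) (H i) = 0
        rw [comp_aeval]
        have := hf (Sum.inl i)
        change aeval (Sum.elim x y) (H i) = 0 at this
        rw [← this]
        congr 2
        funext i
        rcases i with i | i
        · simp
        · simp [hy i]
      have hker : (Matrix.of fun i j => eval p (pderiv j (h i))).mulVec
          (fun i => V' (Sum.inl i)) = 0 := by
        funext i
        have := hx i
        rw [aeval_dual] at this
        have h2 := congrArg TrivSqZeroExt.snd this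
        simp only [TrivSqZeroExt.snd_add, TrivSqZeroExt.snd_inl, TrivSqZeroExt.snd_inr,
          zero_add, TrivSqZeroExt.snd_zero] at h2
        simp only [Matrix.mulVec, dotProduct, Matrix.of_apply, Pi.zero_apply]
        rw [← h2]
        refine Finset.sum_congr rfl fun j _ => ?_
        rw [mul_comm, aeval_eq_eval']
      have hv0 : (fun i => V' (Sum.inl i)) = (0 : τ → K) := by
        by_contra hne
        exact hpdet (Matrix.exists_mulVec_eq_zero_iff.1 ⟨_, hne, hker⟩)
      apply hV'0
      funext i
      rcases i with i | j
      · exact congrFun hv0 i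
      · have h1 := hy j
        have hxp : x = fun i => TrivSqZeroExt.inl (p i) + TrivSqZeroExt.inr 0 := by
          funext i
          simp only [x]
          have := congrFun hv0 i
          simp only [Pi.zero_apply] at this
          rw [this]
        rw [hxp, aeval_dual p (fun _ => 0)] at h1
        have h2 := congrArg TrivSqZeroExt.snd h1
        simpa [y] using h2)
  rw [Finset.card_map] at hb
  refine hb.trans (le_of_eq ?_)
  simp [dd, Finset.card_univ]

end Pool.Agent.H72.Bp
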