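import Pool.Agent.H72.Bp.Bun
import Pool.Agent.H72.Bp.Mer

/-!
The stage lemma.
-/

set_option autoImplicit false

namespace Pool.Agent.H72.Bp

open Finset MvPolynomial
open scoped Nat
open Pool.Agent.PerSL2

universe u

namespace StgAux

section basic

variable {R : Type u} [CommRing R] {ρ κ : Type} [Fintype ρ] [DecidableEq ρ] [Fintype κ]
  [DecidableEq κ]

/-- too many columns with entries in few rows -/
theorem pm_hall_col {ι ι' : Type} [Fintype ι] [Fintype ι'] (A : ρ → κ → R) (f : ι → κ)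
    (hf : Function.Injective f) (g : ι' → ρ) (h : Fintype.card ι' < Fintype.card ι)
    (h0 : ∀ i r, (∀ j, r ≠ g j) → A r (f i) = 0) : pm A = 0 := by
  unfold pm
  refine Finset.sum_eq_zero fun σ _ => ?_
  by_contra hne
  have hne' : ∀ c, A (σ c) c ≠ 0 := fun c hc =>
    hne (Finset.prod_eq_zero (Finset.mem_univ c) hc)
  have h1 : ∀ i, ∃ j, σ (f i) = g j := by
    intro i
    by_contra hcon
    push Not at hcon
    exact hne' (f i) (h0 i _ hcon)
  choose u hu using h1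
  have hui : Function.Injective u := fun i i' hii => by
    have := hu i
    rw [hii, ← hu i'] at this
    exact hf (σ.injective this)
  exact absurd (Fintype.card_le_of_injective u hui) (by omega)

/-- too many rows with entries in few columns -/
theorem pm_hall_row {ι ι' : Type} [Fintype ι] [Fintype ι'] (A : ρ → κ → R) (f : ι → ρ)
    (hf : Function.Injective f) (g : ι' → κ) (h : Fintype.card ι' < Fintype.card ι)
    (h0 : ∀ i c, (∀ j, c ≠ g j) → A (f i) c = 0) : pm A = 0 := by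
  rw [← pm_transpose]
  exact pm_hall_col _ f hf g h h0

end basic

section defs

variable {R : Type u} [CommRing R] {Q P ρ κ : Type} [DecidableEq P] {k : ℕ}

/-- the old part, the new distinguished rows and columns, the sources -/
def W3 (k : ℕ) (A : ρ ⊕ P → κ ⊕ P → R) (a b : P → R) :
    ((ρ ⊕ P) ⊕ P) ⊕ Fin k → ((κ ⊕ P) ⊕ P) ⊕ Fin k → R
  | Sum.inl (Sum.inl r), Sum.inl (Sum.inl c) => A r c
  | Sum.inl (Sum.inl _), Sum.inl (Sum.inr _) => 0
  | Sum.inl (Sum.inl _), Sum.inr _ => 0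
  | Sum.inl (Sum.inr _), Sum.inl _ => 0
  | Sum.inl (Sum.inr p), Sum.inr _ => b p
  | Sum.inr _, Sum.inl (Sum.inl _) => 0
  | Sum.inr _, Sum.inl (Sum.inr p) => a p
  | Sum.inr _, Sum.inr _ => 0

/-- the rows of the bundles -/
def N3 (ρ : Type) (k : ℕ) (α : Q → P → R) (q : Q) (i : P) : ((ρ ⊕ P) ⊕ P) ⊕ Fin k → R
  | Sum.inl (Sum.inl (Sum.inl _)) => 0
  | Sum.inl (Sum.inl (Sum.inr p)) => if i = p then α q i else 0
  | Sum.inl (Sum.inr p) => if i = p then 1 else 0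
  | Sum.inr _ => 0

/-- the equivalence of the index types -/
def eS (ρ P U : Type) (k : ℕ) :
    (((ρ ⊕ P) ⊕ P) ⊕ Fin k) ⊕ U ≃ (((ρ ⊕ P) ⊕ U) ⊕ P) ⊕ Fin k where
  toFun
    | Sum.inl (Sum.inl (Sum.inl r)) => Sum.inl (Sum.inl (Sum.inl r))
    | Sum.inl (Sum.inl (Sum.inr p)) => Sum.inl (Sum.inr p)
    | Sum.inl (Sum.inr s) => Sum.inr s
    | Sum.inr x => Sum.inl (Sum.inl (Sum.inr x))
  invFun
    | Sum.inl (Sum.inl (Sum.inl r)) => Sum.inl (Sum.inl (Sum.inl r))
    | Sum.inl (Sum.inr p) => Sum.inl (Sum.inl (Sum.inr p))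
    | Sum.inr s => Sum.inl (Sum.inr s)
    | Sum.inl (Sum.inl (Sum.inr x)) => Sum.inr x
  left_inv x := by rcases x with ((r | p) | s) | x <;> rfl
  right_inv x := by rcases x with ((r | x) | p) | s <;> rfl

/-- one released bundle: the columns other than `μ`, `κ_P` -/
def A1 (k : ℕ) (A : ρ ⊕ P → κ ⊕ P → R) (b β : P → R) :
    ((ρ ⊕ P) ⊕ P) ⊕ Fin k → κ ⊕ (Fin k ⊕ P) → R
  | Sum.inl (Sum.inl r), Sum.inl c => A r (Sum.inl c)
  | Sum.inl (Sum.inl _), Sum.inr (Sum.inl _) => 0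
  | Sum.inl (Sum.inl (Sum.inl _)), Sum.inr (Sum.inr _) => 0
  | Sum.inl (Sum.inl (Sum.inr p)), Sum.inr (Sum.inr j) => if j = p then β j else 0
  | Sum.inl (Sum.inr _), Sum.inl _ => 0
  | Sum.inl (Sum.inr p), Sum.inr (Sum.inl _) => b p
  | Sum.inl (Sum.inr p), Sum.inr (Sum.inr j) => if j = p then 1 else 0
  | Sum.inr _, _ => 0

/-- the columns `μ` -/
def M1 (ρ : Type) (k : ℕ) (a : P → R) : ((ρ ⊕ P) ⊕ P) ⊕ Fin k → P → R
  | Sum.inl _, _ => 0
  | Sum.inr _, p => a p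

/-- the columns `κ_P` -/
def N1' (k : ℕ) (A : ρ ⊕ P → κ ⊕ P → R) : ((ρ ⊕ P) ⊕ P) ⊕ Fin k → P → R
  | Sum.inl (Sum.inl r), p => A r (Sum.inr p)
  | Sum.inl (Sum.inr _), _ => 0
  | Sum.inr _, _ => 0

/-- after the first merge, transposed -/
def A2 (k : ℕ) (A : ρ ⊕ P → κ ⊕ P → R) (a : P → R) : (κ ⊕ P) ⊕ Fin k → ρ ⊕ Fin k → R
  | Sum.inl c, Sum.inl r => A (Sum.inl r) c
  | Sum.inl (Sum.inl _), Sum.inr _ => 0
  | Sum.inl (Sum.inr p), Sum.inr _ => a p
  | Sum.inr _, _ => 0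

/-- the rows `μ'` -/
def M2 (κ : Type) (k : ℕ) (b : P → R) : (κ ⊕ P) ⊕ Fin k → P → R
  | Sum.inl _, _ => 0
  | Sum.inr _, p => b p

/-- the rows `ρ_P` -/
def N2' (k : ℕ) (A : ρ ⊕ P → κ ⊕ P → R) : (κ ⊕ P) ⊕ Fin k → P → R
  | Sum.inl c, p => A (Sum.inr p) c
  | Sum.inr _, _ => 0

end defs

section equivs

/-- rows for one released bundle -/
def eA {Q : Type} (X P : Type) (q : Q) : X ⊕ P ≃ X ⊕ ({q' // q' ∈ ({q} : Finset Q)} × P) where
  toFun
    | Sum.inl x => Sum.inl x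
    | Sum.inr p => Sum.inr (⟨q, Finset.mem_singleton_self q⟩, p)
  invFun
    | Sum.inl x => Sum.inl x
    | Sum.inr (_, p) => Sum.inr p
  left_inv x := by rcases x with x | x <;> rfl
  right_inv x := by
    rcases x with x | ⟨⟨q', hq'⟩, p⟩
    · rfl
    · have : q' = q := Finset.mem_singleton.1 hq'
      subst this
      rfl

/-- columns for one released bundle -/
def eB (κ P : Type) (k : ℕ) :
    (κ ⊕ (Fin k ⊕ P)) ⊕ (P ⊕ P) ≃ (((κ ⊕ P) ⊕ P) ⊕ Fin k) ⊕ P where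
  toFun
    | Sum.inl (Sum.inl c) => Sum.inl (Sum.inl (Sum.inl (Sum.inl c)))
    | Sum.inl (Sum.inr (Sum.inl s)) => Sum.inl (Sum.inr s)
    | Sum.inl (Sum.inr (Sum.inr j)) => Sum.inr j
    | Sum.inr (Sum.inl p) => Sum.inl (Sum.inl (Sum.inr p))
    | Sum.inr (Sum.inr p) => Sum.inl (Sum.inl (Sum.inl (Sum.inr p)))
  invFun
    | Sum.inl (Sum.inl (Sum.inl (Sum.inl c))) => Sum.inl (Sum.inl c)
    | Sum.inl (Sum.inr s) => Sum.inl (Sum.inr (Sum.inl s))
    | Sum.inr j => Sum.inl (Sum.inr (Sum.inr j))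
    | Sum.inl (Sum.inl (Sum.inr p)) => Sum.inr (Sum.inl p)
    | Sum.inl (Sum.inl (Sum.inl (Sum.inr p))) => Sum.inr (Sum.inr p)
  left_inv x := by rcases x with (c | (s | j)) | (p | p) <;> rfl
  right_inv x := by rcases x with (((c | p) | p) | s) | j <;> rfl

/-- the columns after the first merge -/
def eC (κ P : Type) (k : ℕ) : ((κ ⊕ P) ⊕ Fin k) ⊕ P ≃ (κ ⊕ (Fin k ⊕ P)) ⊕ P where
  toFun
    | Sum.inl (Sum.inl (Sum.inl c)) => Sum.inl (Sum.inl c)
    | Sum.inl (Sum.inl (Sum.inr p)) => Sum.inr p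
    | Sum.inl (Sum.inr s) => Sum.inl (Sum.inr (Sum.inl s))
    | Sum.inr j => Sum.inl (Sum.inr (Sum.inr j))
  invFun
    | Sum.inl (Sum.inl c) => Sum.inl (Sum.inl (Sum.inl c))
    | Sum.inr p => Sum.inl (Sum.inl (Sum.inr p))
    | Sum.inl (Sum.inr (Sum.inl s)) => Sum.inl (Sum.inr s)
    | Sum.inl (Sum.inr (Sum.inr j)) => Sum.inr j
  left_inv x := by rcases x with ((c | p) | s) | j <;> rfl
  right_inv x := by rcases x with (c | (s | j)) | p <;> rfl

/-- the rows after the first merge -/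
def eD (ρ P : Type) (k : ℕ) : (ρ ⊕ Fin k) ⊕ (P ⊕ P) ≃ ((ρ ⊕ P) ⊕ P) ⊕ Fin k where
  toFun
    | Sum.inl (Sum.inl r) => Sum.inl (Sum.inl (Sum.inl r))
    | Sum.inl (Sum.inr s) => Sum.inr s
    | Sum.inr (Sum.inl p) => Sum.inl (Sum.inr p)
    | Sum.inr (Sum.inr p) => Sum.inl (Sum.inl (Sum.inr p))
  invFun
    | Sum.inl (Sum.inl (Sum.inl r)) => Sum.inl (Sum.inl r)
    | Sum.inr s => Sum.inl (Sum.inr s)
    | Sum.inl (Sum.inr p) => Sum.inr (Sum.inl p)
    | Sum.inl (Sum.inl (Sum.inr p)) => Sum.inr (Sum.inr p)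
  left_inv x := by rcases x with (r | s) | (p | p) <;> rfl
  right_inv x := by rcases x with ((r | p) | p) | s <;> rfl

end equivs

section steps

variable {K R : Type u} [Field K] [CommRing R] [Algebra K R] {Q P ρ κ : Type}
    [Fintype Q] [DecidableEq Q] [Fintype P] [DecidableEq P]
    [Fintype ρ] [DecidableEq ρ] [Fintype κ] [DecidableEq κ] {k m : ℕ}

set_option synthInstance.maxSize 1000 in
theorem step1 (ζ : K) (A : ρ ⊕ P → κ ⊕ P → R) (α β : Q → P → R) (a b : P → R) :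
    pm (fr k (stg (m := m) ζ A α β) a b) =
      pm (buM (m := m) ζ (W3 k A a b) (N3 κ k α) (N3 ρ k β)) := by
  rw [← pm_reindex (eS ρ P ((Q × P) ⊕ (Q × Fin m)) k) (eS κ P ((Q × P) ⊕ (Q × Fin m)) k)]
  congr 1
  funext r c
  rcases r with (((r | p) | p) | s) | (⟨q, i⟩ | ⟨q, v⟩) <;>
    rcases c with (((c | p') | p') | s') | (⟨q', i'⟩ | ⟨q', v'⟩) <;> first | rfl | skip
  change (if p = i' then (1 : R) else 0) = if i' = p then 1 else 0
  simp only [eq_comm]

theorem step_empty (hm : Fintype.card P = m) (hkm : k < m)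
    (A : ρ ⊕ P → κ ⊕ P → R) (α β : Q → P → R) (a b : P → R) :
    pm (buT ∅ (W3 k A a b) (N3 κ k α) (N3 ρ k β)) = 0 := by
  apply pm_hall_col (ι := P) (ι' := Fin k) _ (fun p => Sum.inl (Sum.inl (Sum.inr p)))
    _ (fun s => Sum.inl (Sum.inr s))
  · rw [Fintype.card_fin, hm]
    exact hkm
  · rintro p (((r | p') | s) | ⟨⟨q, hq⟩, i⟩) h
    · rfl
    · rfl
    · exact absurd rfl (h s)
    · exact absurd hq (Finset.notMem_empty _)
  · intro p p' h
    simpa using h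

theorem step_big (hk : 0 < k) (hm : Fintype.card P = m) {T : Finset Q} (hT : 2 ≤ T.card)
    (A : ρ ⊕ P → κ ⊕ P → R) (α β : Q → P → R) (a b : P → R) :
    pm (buT T (W3 k A a b) (N3 κ k α) (N3 ρ k β)) = 0 := by
  apply pm_hall_row (ι := Fin k ⊕ ({q // q ∈ T} × P)) (ι' := P ⊕ P) _
    (Sum.elim (fun s => Sum.inl (Sum.inr s)) (fun x => Sum.inr x))
    _ (Sum.elim (fun p => Sum.inl (Sum.inl (Sum.inl (Sum.inr p))))
      (fun p => Sum.inl (Sum.inl (Sum.inr p))))
  · rw [Fintype.card_sum, Fintype.card_sum, Fintype.card_prod, Fintype.card_fin,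
      Fintype.card_coe, hm]
    nlinarith
  · rintro (s | ⟨q, i⟩) ((((c | p) | p) | s') | ⟨q', j⟩) h
    · rfl
    · rfl
    · exact absurd rfl (h (Sum.inr p))
    · rfl
    · rfl
    · rfl
    · exact absurd rfl (h (Sum.inl p))
    · exact absurd rfl (h (Sum.inr p))
    · rfl
    · rfl
  · rintro (s | x) (s' | x') h
    · simpa using h
    · simp at h
    · simp at h
    · simpa using h

theorem step_one (A : ρ ⊕ P → κ ⊕ P → R) (α β : Q → P → R) (a b : P → R) (q : Q) :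
    pm (buT {q} (W3 k A a b) (N3 κ k α) (N3 ρ k β)) =
      pm (fr k A (fun p => a p * α q p) (fun p => b p * β q p)) := by
  have h1 : pm (buT {q} (W3 k A a b) (N3 κ k α) (N3 ρ k β)) =
      pm (mgM (A1 k A b (β q)) (M1 ρ k a) (N1' k A) (α q)) := by
    rw [← pm_reindex (eA (((ρ ⊕ P) ⊕ P) ⊕ Fin k) P q)
      ((eB κ P k).trans (eA (((κ ⊕ P) ⊕ P) ⊕ Fin k) P q))]
    congr 1
    funext r c
    rcases r with (((r | p) | p) | s) | i <;>
      rcases c with (c | (s' | j)) | (p' | p') <;> rfl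
  have h2 : pm (mgR (A1 k A b (β q)) (M1 ρ k a) (N1' k A) (α q)) =
      pm (mgM (A2 k A (fun p => a p * α q p)) (M2 κ k b) (N2' k A) (β q)) := by
    rw [← pm_transpose, ← pm_reindex (eC κ P k) (eD ρ P k)]
    congr 1
    funext c r
    rcases c with ((c | p) | s) | j <;> rcases r with (r | s') | (p' | p') <;>
      simp [eC, eD, mgR, mgM, A1, M1, N1', A2, M2, N2', mul_comm]
  have h3 : pm (mgR (A2 k A (fun p => a p * α q p)) (M2 κ k b) (N2' k A) (β q)) =
      pm (fr k A (fun p => a p * α q p) (fun p => b p * β q p)) := by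
    rw [← pm_transpose (fr k A (fun p => a p * α q p) (fun p => b p * β q p)),
      ← pm_reindex (Equiv.refl _) (BunAux.ex ρ P (Fin k))]
    congr 1
    funext c r
    rcases c with (c | p) | s <;> rcases r with (r | s') | p' <;>
      simp [BunAux.ex, mgR, fr, A2, M2, N2', mul_comm]
  rw [h1, merge, h2, merge, h3]

end steps

end StgAux

open StgAux

set_option synthInstance.maxSize 1000 in
theorem stage {K R : Type u} [Field K] [CommRing R] [Algebra K R] {Q P ρ κ : Type}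
    [Fintype Q] [DecidableEq Q] [Fintype P] [DecidableEq P]
    [Fintype ρ] [DecidableEq ρ] [Fintype κ] [DecidableEq κ] {k m : ℕ} (hk : 0 < k)
    (hm : Fintype.card P = m) (hkm : k < m) {ζ : K} (hζ : IsPrimitiveRoot ζ m)
    (A : ρ ⊕ P → κ ⊕ P → R) (α β : Q → P → R) (a b : P → R) :
    pm (fr k (stg (m := m) ζ A α β) a b) =
      algebraMap K R (((m ! : K) ^ 2) ^ (Fintype.card Q - 1) * (m ! : K)) *
        ∑ q, pm (fr k A (fun p => a p * α q p) (fun p => b p * β q p)) := by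
  rw [StgAux.step1, bundle hm hm (by omega) hζ, sum_small]
  · rw [step_empty hm hkm, mul_zero, zero_add, Finset.mul_sum]
    refine Finset.sum_congr rfl fun q _ => ?_
    rw [step_one, Finset.card_sdiff_of_subset (Finset.subset_univ _), Finset.card_univ,
      Finset.card_singleton, pow_one]
  · intro T hT
    rw [step_big hk hm hT, mul_zero]

end Pool.Agent.H72.Bp
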